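import Pool.Agent.Lib.MP_3efbeb_nt.Odd.Spec

/-!
# Module BIL: the bilinear relation
-/

set_option autoImplicit false

namespace Pool.Agent.Lib.MP3efbeb.Odd

open Finset
open scoped Classical

namespace BILM

theorem lam_mul {a b : ℕ} (ha : a ≠ 0) (hb : b ≠ 0) : lam (a * b) = lam a * lam b := by
  unfold lam
  rw [(Nat.perm_primeFactorsList_mul ha hb).length_eq, List.length_append, pow_add]

theorem lam_sq (n : ℕ) : lam n * lam n = 1 := by
  unfold lam
  rw [← mul_pow]
  norm_num

theorem Lam_sq (K : Finset ℕ) (d b : ℕ) : Lam K d b * Lam K d b = 1 := by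
  unfold Lam
  rw [← prod_mul_distrib]
  exact prod_eq_one fun h _ => lam_sq _

theorem pow_odd {x : ℤ} (hx : x * x = 1) {k : ℕ} (hk : Odd k) : x ^ k = x := by
  obtain ⟨m, rfl⟩ := hk
  rw [pow_succ, pow_mul, pow_two, hx, one_pow, one_mul]

end BILM

open BILM in
theorem specBIL : SpecBIL := by
  intro H K d b c s a hKH hodd hd hb hc hB hC ha
  set P := ∏ h ∈ H, (b + d * h) * (c + d * h) with hP
  have hBpos : ∀ g, 0 < b + d * g := fun g => by positivity
  have hCpos : ∀ g, 0 < c + d * g := fun g => by positivity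
  -- the divisions
  have hdiv : ∀ g ∈ H, ∀ h ∈ H, ∃ t l, P = (b + d * g) * (c + d * h) * t ∧
      a + b * h + c * g + d * g * h = (b + d * g) * (c + d * h) * l ∧ d * l = t * s + 1 := by
    intro g hg h hh
    have h1 : (b + d * g) * (c + d * h) ∣ P := by
      rw [hP, prod_mul_distrib]
      exact mul_dvd_mul (dvd_prod_of_mem (fun h => b + d * h) hg)
        (dvd_prod_of_mem (fun h => c + d * h) hh)
    obtain ⟨t, ht⟩ := h1
    have h2 : d * (a + b * h + c * g + d * g * h) =
        (b + d * g) * (c + d * h) * (t * s + 1) := by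
      have : d * (a + b * h + c * g + d * g * h) =
          d * a + d * b * h + d * c * g + d * d * g * h := by ring
      rw [this, ha, ht]
      ring
    have h3 : (b + d * g) * (c + d * h) ∣ a + b * h + c * g + d * g * h := by
      refine Nat.Coprime.dvd_of_dvd_mul_left (k := (b + d * g) * (c + d * h)) (m := d) ?_
        ⟨_, h2⟩
      exact ((hB g hg).mul_right (hC h hh)).symm
    obtain ⟨l, hl⟩ := h3
    refine ⟨t, l, ht, hl, ?_⟩
    rw [hl] at h2
    have h4 : (b + d * g) * (c + d * h) * (d * l) = (b + d * g) * (c + d * h) * (t * s + 1) := by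
      rw [← h2]
      ring
    exact Nat.eq_of_mul_eq_mul_left (Nat.mul_pos (hBpos g) (hCpos h)) h4
  have hrow : ∀ g ∈ H, ∃ n, a + c * g = (b + d * g) * n := by
    intro g hg
    obtain ⟨t, l, -, h2, -⟩ := hdiv g hg g hg
    have h3 : (b + d * g) ∣ (a + c * g) + (b + d * g) * g := ⟨(c + d * g) * l, by
      rw [← mul_assoc, ← h2]
      ring⟩
    exact (Nat.dvd_add_left (dvd_mul_right _ _)).1 h3
  have hcol : ∀ h ∈ H, ∃ m, a + b * h = (c + d * h) * m := by
    intro h hh
    obtain ⟨t, l, -, h2, -⟩ := hdiv h hh h hh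
    have h3 : (c + d * h) ∣ (a + b * h) + (c + d * h) * h := ⟨(b + d * h) * l, by
      have e : (c + d * h) * ((b + d * h) * l) = (b + d * h) * (c + d * h) * l := by ring
      rw [e, ← h2]
      ring⟩
    exact (Nat.dvd_add_left (dvd_mul_right _ _)).1 h3
  let n : ℕ → ℕ := fun g => (a + c * g) / (b + d * g)
  let m : ℕ → ℕ := fun h => (a + b * h) / (c + d * h)
  let l : ℕ → ℕ → ℕ := fun g h =>
    (a + b * h + c * g + d * g * h) / ((b + d * g) * (c + d * h))
  have main : ∀ g ∈ H, ∀ h ∈ H, 1 ≤ l g h ∧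
      d * l g h = (P / ((b + d * g) * (c + d * h))) * s + 1 ∧
      n g + h = (c + d * h) * l g h ∧ m h + g = (b + d * g) * l g h := by
    intro g hg h hh
    obtain ⟨t, l', h1, h2, h3⟩ := hdiv g hg h hh
    have hpos : 0 < (b + d * g) * (c + d * h) := Nat.mul_pos (hBpos g) (hCpos h)
    have e1 : l g h = l' := by
      change (a + b * h + c * g + d * g * h) / ((b + d * g) * (c + d * h)) = l'
      rw [h2, Nat.mul_div_cancel_left _ hpos]
    have e2 : P / ((b + d * g) * (c + d * h)) = t := by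
      rw [h1, Nat.mul_div_cancel_left _ hpos]
    obtain ⟨n', hn'⟩ := hrow g hg
    obtain ⟨m', hm'⟩ := hcol h hh
    have e3 : n g = n' := by
      change (a + c * g) / (b + d * g) = n'
      rw [hn', Nat.mul_div_cancel_left _ (hBpos g)]
    have e4 : m h = m' := by
      change (a + b * h) / (c + d * h) = m'
      rw [hm', Nat.mul_div_cancel_left _ (hCpos h)]
    rw [e1, e2, e3, e4]
    refine ⟨?_, h3, ?_, ?_⟩
    · by_contra hlt
      have : l' = 0 := by omega
      rw [this] at h3
      omega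
    · refine Nat.eq_of_mul_eq_mul_left (hBpos g) ?_
      rw [mul_add, ← hn', ← mul_assoc, ← h2]
      ring
    · refine Nat.eq_of_mul_eq_mul_left (hCpos h) ?_
      have e : (c + d * h) * ((b + d * g) * l') = (b + d * g) * (c + d * h) * l' := by ring
      rw [mul_add, ← hm', e, ← h2]
      ring
  refine ⟨n, m, l, main, ?_⟩
  have p1 : ∏ g ∈ K, Lam K 1 (n g) =
      ∏ g ∈ K, ∏ h ∈ K, (lam (c + d * h) * lam (l g h)) := by
    refine prod_congr rfl fun g hg => ?_
    unfold Lam
    refine prod_congr rfl fun h hh => ?_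
    obtain ⟨h1, -, h3, -⟩ := main g (hKH hg) h (hKH hh)
    rw [one_mul, h3, lam_mul (hCpos h).ne' (by omega)]
  have p2 : ∏ h ∈ K, Lam K 1 (m h) =
      ∏ g ∈ K, ∏ h ∈ K, (lam (b + d * g) * lam (l g h)) := by
    rw [prod_comm]
    refine prod_congr rfl fun h hh => ?_
    unfold Lam
    refine prod_congr rfl fun g hg => ?_
    obtain ⟨h1, -, -, h4⟩ := main g (hKH hg) h (hKH hh)
    rw [one_mul, h4, lam_mul (hBpos g).ne' (by omega)]
  rw [p1, p2, ← prod_mul_distrib]
  have p3 : ∀ g ∈ K, (∏ h ∈ K, (lam (c + d * h) * lam (l g h))) *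
      (∏ h ∈ K, (lam (b + d * g) * lam (l g h))) = Lam K d c * lam (b + d * g) := by
    intro g hg
    rw [← prod_mul_distrib]
    have p4 : ∀ h ∈ K, lam (c + d * h) * lam (l g h) * (lam (b + d * g) * lam (l g h)) =
        lam (c + d * h) * lam (b + d * g) := by
      intro h _
      linear_combination (lam (c + d * h) * lam (b + d * g)) * lam_sq (l g h)
    rw [prod_congr rfl p4, prod_mul_distrib, prod_const, pow_odd (lam_sq _) hodd]
    rfl
  rw [prod_congr rfl p3, prod_mul_distrib, prod_const, pow_odd (Lam_sq K d c) hodd]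
  rw [mul_comm]
  rfl

end Pool.Agent.Lib.MP3efbeb.Odd
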