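import Pool.Agent.Lib.MP_3efbeb_nt.Odd.Spec

/-!
# Module COR: consequences of the final form (powers of `x`, triples, quadruples)
-/

set_option autoImplicit false

namespace Pool.Agent.Lib.MP3efbeb.Odd.CORM

open Finset
open scoped Classical

/-- the form with powers of `x` -/
theorem delta_form (hFIN : SpecFIN) (H K : Finset ℕ) (hadm : Admissible H) (hK : K ⊆ H)
    (hodd : Odd K.card) (r : ℕ) (δ : ℝ) (hδ : 0 < δ) :
    ∃ C x0 : ℕ, ∀ x : ℕ, x0 ≤ x → (x : ℝ) ^ (1 - δ) ≤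
      (((Icc 1 x).filter (fun n =>
        (∀ p : ℕ, p.Prime → p ∣ ∏ h ∈ H, (n + h) → x < p ^ C) ∧
        (∏ h ∈ K, (n + h)).primeFactorsList.length % 2 = r % 2)).card : ℝ) := by
  obtain ⟨C₀, hC₀⟩ := hFIN H K hadm hK hodd r
  set C₁ : ℕ := C₀ + 1 with hC₁
  set η : ℝ := min δ 1 / C₁ with hη
  have hC1pos : (0 : ℝ) < C₁ := by rw [hC₁]; positivity
  have hmin : 0 < min δ 1 := lt_min hδ one_pos
  have hη0 : 0 < η := div_pos hmin hC1pos
  have hηC : η * C₁ = min δ 1 := by rw [hη]; field_simp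
  obtain ⟨C, hC⟩ := exists_nat_ge (1 / η)
  obtain ⟨x0, hx0⟩ := exists_nat_ge ((2 : ℝ) ^ (1 / η))
  refine ⟨C, x0 + 1, ?_⟩
  intro x hx
  have hxR : (1 : ℝ) ≤ x := by exact_mod_cast (by omega : 1 ≤ x)
  have hx0' : (0 : ℝ) < x := by linarith
  set y : ℝ := (x : ℝ) ^ η with hy
  have hy2 : 2 ≤ y := by
    have h1 : (2 : ℝ) ^ (1 / η) ≤ x := hx0.trans (by exact_mod_cast (by omega : x0 ≤ x))
    have h2 : ((2 : ℝ) ^ (1 / η)) ^ η ≤ (x : ℝ) ^ η :=
      Real.rpow_le_rpow (by positivity) h1 hη0.le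
    rwa [← Real.rpow_mul (by norm_num), one_div, inv_mul_cancel₀ hη0.ne', Real.rpow_one] at h2
  have hy0 : 0 ≤ y := by linarith
  set z : ℕ := ⌊y⌋₊ with hz
  have hz2 : 2 ≤ z := Nat.le_floor (by exact_mod_cast hy2)
  have hzy : (z : ℝ) ≤ y := Nat.floor_le hy0
  have hyz : y < z + 1 := Nat.lt_floor_add_one y
  have hyC : y ^ C₁ = (x : ℝ) ^ (min δ 1) := by
    rw [hy, ← Real.rpow_natCast, ← Real.rpow_mul hx0'.le, hηC]
  have hzC : (z : ℝ) ^ C₁ ≤ (x : ℝ) ^ (min δ 1) := by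
    rw [← hyC]
    exact pow_le_pow_left₀ (Nat.cast_nonneg _) hzy _
  have hzC0 : (z : ℝ) ^ C₀ ≤ (x : ℝ) ^ (min δ 1) := by
    refine le_trans (pow_le_pow_right₀ ?_ (by omega)) hzC
    exact_mod_cast (by omega : 1 ≤ z)
  have hzx : z ^ C₀ ≤ x := by
    have h1 : (x : ℝ) ^ (min δ 1) ≤ x := by
      calc (x : ℝ) ^ (min δ 1) ≤ (x : ℝ) ^ (1 : ℝ) :=
            Real.rpow_le_rpow_of_exponent_le hxR (min_le_right _ _)
        _ = x := Real.rpow_one _
    exact_mod_cast hzC0.trans h1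
  have hmain := hC₀ z hz2 x hzx
  set cn := ((Icc 1 x).filter (fun n =>
      (∀ p : ℕ, p.Prime → p ∣ ∏ h ∈ H, (n + h) → z < p) ∧
      (∏ h ∈ K, (n + h)).primeFactorsList.length % 2 = r % 2)).card with hcn
  have h1 : (x : ℝ) ≤ (x : ℝ) ^ (min δ 1) * cn := by
    have h2 : (x : ℝ) ≤ (z : ℝ) ^ C₀ * cn := by exact_mod_cast hmain
    exact h2.trans (mul_le_mul_of_nonneg_right hzC0 (Nat.cast_nonneg _))
  have h3 : (x : ℝ) ^ (1 - δ) ≤ cn := by
    have h4 : (x : ℝ) ^ (1 - δ) ≤ (x : ℝ) ^ (1 - min δ 1) :=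
      Real.rpow_le_rpow_of_exponent_le hxR (by linarith [min_le_left δ 1])
    refine h4.trans ?_
    rw [Real.rpow_sub hx0', Real.rpow_one, div_le_iff₀ (Real.rpow_pos_of_pos hx0' _)]
    linarith
  refine h3.trans ?_
  rw [hcn]
  exact_mod_cast Finset.card_le_card (by
    intro n hn
    rw [Finset.mem_filter] at hn ⊢
    refine ⟨hn.1, ?_, hn.2.2⟩
    intro p hp hd
    have h5 := hn.2.1 p hp hd
    have h6 : y < p := by
      have : ((z + 1 : ℕ) : ℝ) ≤ p := by exact_mod_cast h5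
      push_cast at this
      linarith
    have h7 : (x : ℝ) ≤ y ^ C := by
      rw [hy, ← Real.rpow_natCast, ← Real.rpow_mul hx0'.le]
      calc (x : ℝ) = (x : ℝ) ^ (1 : ℝ) := (Real.rpow_one _).symm
        _ ≤ (x : ℝ) ^ (η * C) := by
          refine Real.rpow_le_rpow_of_exponent_le hxR ?_
          rw [div_le_iff₀ hη0] at hC
          linarith
    have hCne : C ≠ 0 := by
      intro h0
      rw [h0] at hC
      have : 0 < 1 / η := by positivity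
      norm_num at hC
      linarith
    have h8 : y ^ C < (p : ℝ) ^ C := pow_lt_pow_left₀ h6 hy0 hCne
    exact_mod_cast lt_of_le_of_lt h7 h8)

lemma adm_of {H : Finset ℕ} (h2 : ∀ h ∈ H, ¬ 2 ∣ 1 + h) (h3 : ∀ h ∈ H, ¬ 3 ∣ 2 + h)
    (h5 : ∀ h ∈ H, ¬ 5 ∣ 1 + h) (h7 : ∀ h ∈ H, ¬ 7 ∣ 2 + h) (h9 : ∀ h ∈ H, h ≤ 8) :
    Admissible H := by
  intro p hp
  rcases Nat.lt_or_ge p 11 with hlt | hge
  · have : p = 2 ∨ p = 3 ∨ p = 5 ∨ p = 7 := by
      have hp2 := hp.two_le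
      interval_cases p <;> simp at hp ⊢ <;> revert hp <;> norm_num
    rcases this with rfl | rfl | rfl | rfl
    · exact ⟨1, h2⟩
    · exact ⟨2, h3⟩
    · exact ⟨1, h5⟩
    · exact ⟨2, h7⟩
  · refine ⟨1, fun h hh hd => ?_⟩
    have h1 := Nat.le_of_dvd (by omega) hd
    have h2 := h9 h hh
    omega

lemma adm_triple : Admissible {0, 2, 6} :=
  adm_of (by decide) (by decide) (by decide) (by decide) (by decide)

lemma adm_quad : Admissible {0, 2, 6, 8} :=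
  adm_of (by decide) (by decide) (by decide) (by decide) (by decide)

lemma prod_triple (n : ℕ) : ∏ h ∈ ({0, 2, 6} : Finset ℕ), (n + h) = n * (n + 2) * (n + 6) := by
  simp [Finset.prod_insert, mul_assoc]

lemma prod_quad (n : ℕ) :
    ∏ h ∈ ({0, 2, 6, 8} : Finset ℕ), (n + h) = n * (n + 2) * (n + 6) * (n + 8) := by
  simp [Finset.prod_insert, mul_assoc]

theorem triple_form (hFIN : SpecFIN) (r : ℕ) (δ : ℝ) (hδ : 0 < δ) :
    ∃ C x0 : ℕ, ∀ x : ℕ, x0 ≤ x → (x : ℝ) ^ (1 - δ) ≤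
      (((Icc 1 x).filter (fun n =>
        (∀ p : ℕ, p.Prime → p ∣ n * (n + 2) * (n + 6) → x < p ^ C) ∧
        (n * (n + 2) * (n + 6)).primeFactorsList.length % 2 = r % 2)).card : ℝ) := by
  have h := delta_form hFIN {0, 2, 6} {0, 2, 6} adm_triple (Finset.Subset.refl _)
    (by decide) r δ hδ
  simpa only [prod_triple] using h

theorem quad_form (hFIN : SpecFIN) (K : Finset ℕ) (hK : K ⊆ {0, 2, 6, 8}) (hodd : Odd K.card)
    (r : ℕ) (δ : ℝ) (hδ : 0 < δ) :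
    ∃ C x0 : ℕ, ∀ x : ℕ, x0 ≤ x → (x : ℝ) ^ (1 - δ) ≤
      (((Icc 1 x).filter (fun n =>
        (∀ p : ℕ, p.Prime → p ∣ n * (n + 2) * (n + 6) * (n + 8) → x < p ^ C) ∧
        (∏ h ∈ K, (n + h)).primeFactorsList.length % 2 = r % 2)).card : ℝ) := by
  have h := delta_form hFIN {0, 2, 6, 8} K adm_quad hK hodd r δ hδ
  simpa only [prod_quad] using h

end Pool.Agent.Lib.MP3efbeb.Odd.CORM
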