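import Pool.Agent.Lib.MP_3efbeb_nt.Odd.Spec

/-!
# CRT: a class which avoids all zero classes of the shifts modulo small primes
-/

set_option autoImplicit false

namespace Pool.Agent.Lib.MP3efbeb.Odd

theorem specCRT : SpecCRT := by
  intro H hH W
  classical
  choose! a ha using hH
  set t : Finset ℕ := (Finset.Icc 1 W).filter Nat.Prime with ht
  have hs : ∀ i ∈ t, (fun p : ℕ => p) i ≠ 0 := fun i hi => (Finset.mem_filter.1 hi).2.ne_zero
  have hpp : Set.Pairwise (t : Set ℕ) (Function.onFun Nat.Coprime fun p : ℕ => p) := by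
    intro p hp q hq hpq
    exact (Nat.coprime_primes (Finset.mem_filter.1 hp).2 (Finset.mem_filter.1 hq).2).2 hpq
  obtain ⟨k, hk⟩ := Nat.chineseRemainderOfFinset a (fun p : ℕ => p) t hs hpp
  refine ⟨k + ∏ p ∈ t, p, ?_, ?_⟩
  · have h1 : 0 < ∏ p ∈ t, p := Finset.prod_pos fun p hp => (Finset.mem_filter.1 hp).2.pos
    omega
  · intro p hp hpW h hh hdvd
    have hpt : p ∈ t := Finset.mem_filter.2 ⟨Finset.mem_Icc.2 ⟨hp.one_lt.le, hpW⟩, hp⟩
    have h1 : p ∣ ∏ p ∈ t, p := Finset.dvd_prod_of_mem (fun p => p) hpt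
    have h2 : k + ∏ p ∈ t, p + h ≡ a p + h [MOD p] := by
      have h3 : k + ∏ p ∈ t, p ≡ a p + 0 [MOD p] :=
        Nat.ModEq.add (hk p hpt) ((Nat.modEq_zero_iff_dvd).2 h1)
      rw [add_zero] at h3
      exact h3.add_right h
    exact ha p hp h hh ((h2.dvd_iff dvd_rfl).1 hdvd)

end Pool.Agent.Lib.MP3efbeb.Odd
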