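import Pool.Agent.Lib.MP_3efbeb_nt.Odd.Spec

/-!
# Module FIN: the final form of the theorem
-/

set_option autoImplicit false

namespace Pool.Agent.Lib.MP3efbeb.Odd.FINM

open Finset
open scoped Classical

lemma len_mul {a b : ℕ} (ha : a ≠ 0) (hb : b ≠ 0) :
    (a * b).primeFactorsList.length = a.primeFactorsList.length + b.primeFactorsList.length := by
  have h := (Nat.perm_primeFactorsList_mul ha hb).length_eq
  rw [List.length_append] at h
  exact h

lemma len_prod {n : ℕ} (hn : 1 ≤ n) (K : Finset ℕ) :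
    (∏ h ∈ K, (n + h)).primeFactorsList.length = ∑ h ∈ K, (n + h).primeFactorsList.length := by
  induction K using Finset.induction_on with
  | empty => simp
  | insert q K hq ih =>
    rw [Finset.prod_insert hq, Finset.sum_insert hq, len_mul (by omega), ih]
    exact Finset.prod_ne_zero_iff.2 fun h _ => by omega

lemma Lam_eq {n : ℕ} (hn : 1 ≤ n) (K : Finset ℕ) :
    Lam K 1 n = (-1) ^ (∏ h ∈ K, (n + h)).primeFactorsList.length := by
  rw [len_prod hn K]
  unfold Lam lam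
  rw [← Finset.prod_pow_eq_pow_sum]
  refine Finset.prod_congr rfl fun h _ => ?_
  rw [one_mul]

lemma pow_eq_pow {a r : ℕ} (h : (-1 : ℤ) ^ a = (-1) ^ r) : a % 2 = r % 2 := by
  rcases Nat.even_or_odd a with ha | ha
  · rw [ha.neg_one_pow] at h
    rcases Nat.even_or_odd r with hr | hr
    · rw [Nat.even_iff.1 ha, Nat.even_iff.1 hr]
    · rw [hr.neg_one_pow] at h
      norm_num at h
  · rw [ha.neg_one_pow] at h
    rcases Nat.even_or_odd r with hr | hr
    · rw [hr.neg_one_pow] at h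
      norm_num at h
    · rw [Nat.odd_iff.1 ha, Nat.odd_iff.1 hr]

end Pool.Agent.Lib.MP3efbeb.Odd.FINM

namespace Pool.Agent.Lib.MP3efbeb.Odd

open Finset FINM
open scoped Classical

theorem specFIN (hQA : SpecQA) (hPRI : SpecPRI) : SpecFIN := by
  intro H K hadm hK hodd r
  obtain ⟨Q, C, q0, hQ, hmain⟩ := hQA H K hadm hK hodd
  obtain ⟨Y0, hY0⟩ := hPRI Q hQ
  set B := max Y0 q0 with hB
  refine ⟨(B + 2) * C, ?_⟩
  intro z hz x hx
  have hBz : B ≤ z ^ B := (Nat.lt_pow_self (by omega : 1 < z)).le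
  have hzz : z ≤ z ^ (B + 1) := by
    calc z = z ^ 1 := (pow_one z).symm
      _ ≤ z ^ (B + 1) := Nat.pow_le_pow_right (by omega) (by omega)
  have hBz' : B ≤ z ^ (B + 1) := hBz.trans (Nat.pow_le_pow_right (by omega) (by omega))
  obtain ⟨q, hq, hq1, hq2, hqQ⟩ := hY0 (max z B)
    ((le_max_left _ _).trans (le_max_right _ _))
  have hzq : z < q := lt_of_le_of_lt (le_max_left _ _) hq1
  have hq0 : q0 ≤ q := ((le_max_right Y0 q0).trans (le_max_right z _)).trans hq1.le
  have hqz : q ≤ z ^ (B + 2) := by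
    have h1 : max z B ≤ z ^ (B + 1) := max_le hzz hBz'
    calc q ≤ 2 * max z B := hq2
      _ ≤ z * z ^ (B + 1) := Nat.mul_le_mul hz h1
      _ = z ^ (B + 2) := by ring
  have hqC : q ^ C ≤ z ^ ((B + 2) * C) := by
    rw [pow_mul]
    exact Nat.pow_le_pow_left hqz C
  have he : ((-1 : ℤ) ^ r) = 1 ∨ ((-1 : ℤ) ^ r) = -1 := neg_one_pow_eq_or ℤ r
  have h1 := hmain q hq0 hq hqQ _ he x (hqC.trans hx)
  refine h1.trans (Nat.mul_le_mul hqC ?_)
  unfold cnt
  refine Finset.card_le_card ?_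
  intro n hn
  rw [Finset.mem_filter] at hn ⊢
  obtain ⟨hn1, hn2, hn3⟩ := hn
  have hn0 : 1 ≤ n := (Finset.mem_Icc.1 hn1).1
  refine ⟨hn1, ?_, ?_⟩
  · intro p hp hd
    obtain ⟨h, hh, hd'⟩ := (hp.prime.dvd_finsetProd_iff _).1 hd
    exact lt_of_lt_of_le hzq (hn2 h hh p hp hd')
  · rw [Lam_eq hn0] at hn3
    exact pow_eq_pow hn3

end Pool.Agent.Lib.MP3efbeb.Odd
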