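import Pool.Agent.Lib.MP_3efbeb_nt.Odd.Spec

/-!
# Module NU: the number of roots of a product of linear forms modulo a prime
-/

set_option autoImplicit false

namespace Pool.Agent.Lib.MP3efbeb.Odd

open Finset
open scoped Classical

/-- NU. -/
theorem specNU : SpecNU := by
  intro F p hp hF
  unfold nu
  have h1 : (range p).filter (fun t => p ∣ vF F t) ⊆
      F.biUnion fun f => (range p).filter fun t => p ∣ f.1 * t + f.2 := by
    intro t ht
    rw [mem_filter] at ht
    unfold vF at ht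
    obtain ⟨f, hf, hd⟩ := (hp.prime.dvd_finsetProd_iff _).1 ht.2
    rw [mem_biUnion]
    exact ⟨f, hf, mem_filter.2 ⟨ht.1, hd⟩⟩
  have h2 : ∀ f ∈ F, ((range p).filter fun t => p ∣ f.1 * t + f.2).card ≤ 1 := by
    intro f hf
    rw [card_le_one]
    intro s hs t ht
    rw [mem_filter, mem_range] at hs ht
    have e : f.1 * s ≡ f.1 * t [MOD p] := by
      have h3 : f.1 * s + f.2 ≡ f.1 * t + f.2 [MOD p] :=
        ((Nat.modEq_zero_iff_dvd.2 hs.2).trans (Nat.modEq_zero_iff_dvd.2 ht.2).symm)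
      exact Nat.ModEq.add_right_cancel' _ h3
    have hc : Nat.gcd p f.1 = 1 := (Nat.Prime.coprime_iff_not_dvd hp).2 (hF f hf)
    have h4 : s ≡ t [MOD p] := Nat.ModEq.cancel_left_of_coprime hc e
    have h5 : s % p = t % p := h4
    rwa [Nat.mod_eq_of_lt hs.1, Nat.mod_eq_of_lt ht.1] at h5
  calc _ ≤ (F.biUnion fun f => (range p).filter fun t => p ∣ f.1 * t + f.2).card :=
        card_le_card h1
    _ ≤ ∑ f ∈ F, ((range p).filter fun t => p ∣ f.1 * t + f.2).card := card_biUnion_le
    _ ≤ ∑ _f ∈ F, 1 := sum_le_sum h2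
    _ = F.card := by simp

end Pool.Agent.Lib.MP3efbeb.Odd
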