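import Pool.Agent.Lib.MP_3efbeb_nt.Odd.Spec
import Pool.Agent.Lib.PntAP.Main

/-!
# PRI: primes congruent to 1 between y and 2y
-/

set_option autoImplicit false

namespace Pool.Agent.Lib.MP3efbeb.Odd

open Filter Topology

theorem specPRI : SpecPRI := by
  intro Q hQ
  have : NeZero Q := ⟨by omega⟩
  have h1 := PntAP.theta_ap_interval (q := Q) (a := 1) isUnit_one (δ := 1) one_pos
  have h2 : (0 : ℝ) < 1 / (Q.totient : ℝ) := by
    have : 0 < Q.totient := Nat.totient_pos.2 (by omega)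
    have : (0 : ℝ) < Q.totient := by exact_mod_cast this
    positivity
  have h3 := (h1.comp tendsto_natCast_atTop_atTop).eventually_const_lt h2
  obtain ⟨Y0, hY0⟩ := eventually_atTop.1 h3
  refine ⟨Y0, fun y hy => ?_⟩
  by_contra hcon
  push Not at hcon
  have h4 := hY0 y hy
  simp only [Function.comp_apply] at h4
  have h5 : PntAP.thetaAP (1 : ZMod Q) ((1 + 1) * (y : ℝ)) = PntAP.thetaAP (1 : ZMod Q) (y : ℝ) := by
    unfold PntAP.thetaAP
    have e1 : ⌊((1 : ℝ) + 1) * (y : ℝ)⌋₊ = 2 * y := by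
      have : ((1 : ℝ) + 1) * (y : ℝ) = ((2 * y : ℕ) : ℝ) := by
        push_cast
        ring
      rw [this, Nat.floor_natCast]
    rw [e1, Nat.floor_natCast]
    refine (Finset.sum_subset ?_ ?_).symm
    · intro p hp
      rw [Finset.mem_filter, Finset.mem_Icc] at hp ⊢
      exact ⟨⟨hp.1.1, by omega⟩, hp.2⟩
    · intro p hp hp'
      exfalso
      rw [Finset.mem_filter, Finset.mem_Icc] at hp hp'
      obtain ⟨⟨hp1, hp2⟩, hp3, hp4⟩ := hp
      have hyp : y < p := by
        by_contra hle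
        exact hp' ⟨⟨hp1, not_lt.1 hle⟩, hp3, hp4⟩
      refine hcon p hp3 hyp hp2 ?_
      have h6 : ((p : ℕ) : ZMod Q) = ((1 : ℕ) : ZMod Q) := by
        rw [hp4, Nat.cast_one]
      exact (ZMod.natCast_eq_natCast_iff' _ _ _).1 h6
  rw [h5, sub_self, zero_div] at h4
  exact lt_irrefl _ h4

end Pool.Agent.Lib.MP3efbeb.Odd
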