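import Pool.Agent.Lib.MP_3efbeb_nt.Odd.Spec

/-!
# Module QB: the bilinear step
-/

set_option autoImplicit false

namespace Pool.Agent.Lib.MP3efbeb.Odd

open Finset
open scoped Classical

namespace QBM

lemma lam_pm (n : ℕ) : lam n = 1 ∨ lam n = -1 := neg_one_pow_eq_or ℤ _

lemma Lam_pm (K : Finset ℕ) (d b : ℕ) : Lam K d b = 1 ∨ Lam K d b = -1 := by
  unfold Lam
  induction K using Finset.induction_on with
  | empty => simp
  | insert a s ha ih =>
    rw [prod_insert ha]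
    rcases lam_pm (b + d * a) with h | h <;> rcases ih with h' | h' <;> rw [h, h'] <;> norm_num

lemma exists_sign {K : Finset ℕ} {A B : ℕ → ℤ} (hA : ∀ g, A g = 1 ∨ A g = -1)
    (hB : ∀ g, B g = 1 ∨ B g = -1) (h : (∏ g ∈ K, A g) * ∏ g ∈ K, B g = -1) {e : ℤ}
    (he : e = 1 ∨ e = -1) : (∃ g ∈ K, A g = e) ∨ ∃ g ∈ K, B g = e := by
  by_contra hcon
  push Not at hcon
  obtain ⟨h1, h2⟩ := hcon
  have hA' : ∀ g ∈ K, A g = -e := by
    intro g hg
    have := h1 g hg
    rcases he with rfl | rfl <;> rcases hA g with h3 | h3 <;> simp_all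
  have hB' : ∀ g ∈ K, B g = -e := by
    intro g hg
    have := h2 g hg
    rcases he with rfl | rfl <;> rcases hB g with h3 | h3 <;> simp_all
  rw [prod_congr rfl hA', prod_congr rfl hB', prod_const, ← pow_add, ← two_mul, pow_mul] at h
  have h3 : (-e) ^ 2 = 1 := by rcases he with rfl | rfl <;> norm_num
  rw [h3, one_pow] at h
  norm_num at h

lemma exists_s {d N r : ℕ} (hd : 1 ≤ d) (h : Nat.Coprime N d) : ∃ s, s < d ∧ d ∣ N * s + r := by
  have : NeZero d := ⟨by omega⟩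
  refine ⟨((-(r : ZMod d)) * ((N : ZMod d))⁻¹).val, ZMod.val_lt _, ?_⟩
  rw [← ZMod.natCast_eq_zero_iff]
  push_cast
  rw [ZMod.natCast_zmod_val]
  have h1 := ZMod.coe_mul_inv_eq_one N h
  linear_combination (-(r : ZMod d)) * h1

lemma rough_mul {q u v : ℕ} (hu : Rough q u) (hv : Rough q v) : Rough q (u * v) := by
  intro p hp hd
  rcases (hp.dvd_mul).1 hd with h | h
  · exact hu p hp h
  · exact hv p hp h

end QBM

open QBM in
theorem specQB (hSV : SpecSV) (hBIL : SpecBIL) : SpecQB := by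
  intro H K hKH hKo C'
  obtain ⟨C1, q1, hsv⟩ := hSV (H.card ^ 2)
  set M : ℕ := Nat.factorial (2 * H.card ^ 2) with hM
  have hM1 : 1 ≤ M := Nat.factorial_pos _
  set C2 : ℕ := 2 * (C' + 3) * H.card + 3 with hC2
  refine ⟨C1 + C2 + 3, q1 + M + (∑ h ∈ H, h) + 2 * K.card + 2,
    fun q hq d b c hd hdq hdp hb hbq hc hcq hR hsg e he x hx => ?_⟩
  have hqq1 : q1 ≤ q := by omega
  have hMq : M ≤ q := by omega
  have hKq : 2 * K.card ≤ q := by omega
  have hq2 : 2 ≤ q := by omega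
  have hq1 : 1 ≤ q := by omega
  have hHq : ∀ h ∈ H, h ≤ q := fun h hh => by
    have := single_le_sum (f := fun h => h) (fun _ _ => Nat.zero_le _) hh
    omega
  have hnp : ∀ p : ℕ, p.Prime → p ∣ d → p < q := fun p _ hpd => (Nat.le_of_dvd hd hpd).trans_lt hdq
  have hcb : ∀ h ∈ H, Nat.Coprime d (b + d * h) := fun h hh =>
    Nat.coprime_of_dvd fun p hp h1 h2 => absurd ((hR h hh).1 p hp h2) (not_le.2 (hnp p hp h1))
  have hcc : ∀ h ∈ H, Nat.Coprime d (c + d * h) := fun h hh =>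
    Nat.coprime_of_dvd fun p hp h1 h2 => absurd ((hR h hh).2 p hp h2) (not_le.2 (hnp p hp h1))
  set L : ℕ := ∏ h ∈ H, (b + d * h) * (c + d * h) with hL
  have hL' : L = (∏ h ∈ H, (b + d * h)) * ∏ h ∈ H, (c + d * h) := by rw [hL, prod_mul_distrib]
  have hLR : Rough q L := by
    intro p hp hpd
    rw [hL] at hpd
    obtain ⟨h, hh, h1⟩ := (Prime.dvd_finsetProd_iff hp.prime _).1 hpd
    exact rough_mul (hR h hh).1 (hR h hh).2 p hp h1
  have hL1 : 1 ≤ L := prod_pos fun h _ => Nat.mul_pos (by omega) (by omega)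
  have hLd : ∀ g ∈ H, ∀ h ∈ H, (b + d * g) * (c + d * h) ∣ L := by
    intro g hg h hh
    rw [hL']
    exact mul_dvd_mul (dvd_prod_of_mem (fun h => b + d * h) hg)
      (dvd_prod_of_mem (fun h => c + d * h) hh)
  set Lq : ℕ → ℕ → ℕ := fun g h => L / ((b + d * g) * (c + d * h)) with hLq
  have hLqm : ∀ g ∈ H, ∀ h ∈ H, (b + d * g) * (c + d * h) * Lq g h = L :=
    fun g hg h hh => Nat.mul_div_cancel' (hLd g hg h hh)
  have hLq1 : ∀ g ∈ H, ∀ h ∈ H, 1 ≤ Lq g h := by
    intro g hg h hh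
    have h1 := hLqm g hg h hh
    rcases Nat.eq_zero_or_pos (Lq g h) with h2 | h2
    · rw [h2, mul_zero] at h1
      omega
    · exact h2
  -- the residue
  have hcop : Nat.Coprime (L * M) d := by
    refine Nat.coprime_of_dvd fun p hp h1 h2 => ?_
    rcases (hp.dvd_mul).1 h1 with h3 | h3
    · exact absurd (hLR p hp h3) (not_le.2 (hnp p hp h2))
    · exact hdp p hp ((hp.dvd_factorial).1 h3) h2
  obtain ⟨s', hs'd, hs'⟩ := exists_s (r := b * c) hd hcop
  set S : ℕ → ℕ := fun t => M * s' + d * M * t with hS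
  have hSd : ∀ t, d ∣ L * S t + b * c := by
    intro t
    have h1 : L * S t + b * c = (L * M * s' + b * c) + d * (L * M * t) := by
      simp only [hS]; ring
    rw [h1]
    exact dvd_add hs' (Dvd.intro _ rfl)
  have hSM : ∀ t, M ∣ S t := fun t => ⟨s' + d * t, by simp only [hS]; ring⟩
  have hS1 : ∀ t, S t + 1 ≤ d * M * (t + 1) := by
    intro t
    simp only [hS]
    have h1 : M * (s' + 1) ≤ M * d := Nat.mul_le_mul_left _ hs'd
    nlinarith
  have key : ∀ t, ∃ (n m : ℕ → ℕ) (l : ℕ → ℕ → ℕ),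
      (∀ g ∈ H, ∀ h ∈ H, 1 ≤ l g h ∧ d * l g h = Lq g h * S t + 1 ∧
        n g + h = (c + d * h) * l g h ∧ m h + g = (b + d * g) * l g h) ∧
      (∏ g ∈ K, Lam K 1 (n g)) * ∏ h ∈ K, Lam K 1 (m h) = Lam K d b * Lam K d c := by
    intro t
    obtain ⟨a, ha⟩ := hSd t
    exact hBIL H K d b c (S t) a hKH hKo hd hb hc hcb hcc ha.symm
  choose n m l hl hs using key
  have hlin : ∀ t, ∀ g ∈ H, ∀ h ∈ H, l t g h = Lq g h * M * t + l 0 g h := by
    intro t g hg h hh
    have h1 := (hl t g hg h hh).2.1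
    have h2 := (hl 0 g hg h hh).2.1
    refine Nat.eq_of_mul_eq_mul_left (show 0 < d by omega) ?_
    rw [mul_add, h1, h2]
    simp only [hS]
    ring
  -- the forms
  set F : Finset (ℕ × ℕ) := (H ×ˢ H).image (fun p => (Lq p.1 p.2 * M, l 0 p.1 p.2)) with hFdef
  have hFc : F.card ≤ H.card ^ 2 := by
    refine card_image_le.trans ?_
    rw [card_product, sq]
  have hFp : ∀ f ∈ F, ∀ p : ℕ, p.Prime → (p ≤ 2 * H.card ^ 2 → ∀ t : ℕ, ¬ p ∣ f.1 * t + f.2) ∧
      (2 * H.card ^ 2 < p → p < q → ¬ p ∣ f.1) := by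
    intro f hf p hp
    rw [hFdef, mem_image] at hf
    obtain ⟨⟨g, h⟩, hgh, rfl⟩ := hf
    rw [mem_product] at hgh
    obtain ⟨hg, hh⟩ := hgh
    simp only at hg hh ⊢
    refine ⟨fun hp2 t hpd => ?_, fun hp2 hpq hpd => ?_⟩
    · rw [← hlin t g hg h hh] at hpd
      have h1 := (hl t g hg h hh).2.1
      have h2 : p ∣ S t := ((hp.dvd_factorial).2 hp2).trans (hSM t)
      have h3 : p ∣ Lq g h * S t + 1 := by rw [← h1]; exact Dvd.dvd.mul_left hpd d
      have h4 : p ∣ 1 := (Nat.dvd_add_right (Dvd.dvd.mul_left h2 _)).1 h3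
      exact hp.one_lt.ne' (Nat.dvd_one.1 h4)
    · rcases (hp.dvd_mul).1 hpd with h3 | h3
      · have h4 : p ∣ L := by
          rw [← hLqm g hg h hh]
          exact Dvd.dvd.mul_left h3 _
        exact absurd (hLR p hp h4) (not_le.2 hpq)
      · exact absurd ((hp.dvd_factorial).1 h3) (not_le.2 hp2)
  -- the size
  set R : ℕ := 2 * L * d * M with hRdef
  have hR1 : 1 ≤ R := Nat.mul_pos (Nat.mul_pos (Nat.mul_pos two_pos hL1) hd) hM1
  have hsz : ∀ u, u ≤ q ^ C' → ∀ h ∈ H, u + d * h ≤ q ^ (C' + 3) := by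
    intro u hu h hh
    have h1 : d * h ≤ q * q := Nat.mul_le_mul hdq.le (hHq h hh)
    have h2 : q ^ C' ≤ q ^ (C' + 2) := Nat.pow_le_pow_right hq1 (by omega)
    have h3 : q * q ≤ q ^ (C' + 2) := by
      rw [← sq]
      exact Nat.pow_le_pow_right hq1 (by omega)
    have h4 : 2 * q ^ (C' + 2) ≤ q ^ (C' + 3) := by
      rw [show q ^ (C' + 3) = q * q ^ (C' + 2) by ring]
      exact Nat.mul_le_mul_right _ hq2
    omega
  have hLle : L ≤ q ^ (2 * (C' + 3) * H.card) := by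
    rw [hL, pow_mul]
    refine prod_le_pow_card _ _ _ fun h hh => ?_
    rw [two_mul, pow_add]
    exact Nat.mul_le_mul (hsz b hbq h hh) (hsz c hcq h hh)
  have hRle : R ≤ q ^ C2 := by
    calc R ≤ q * q ^ (2 * (C' + 3) * H.card) * q * q := by
          rw [hRdef]
          exact Nat.mul_le_mul (Nat.mul_le_mul (Nat.mul_le_mul hq2 hLle) hdq.le) hMq
      _ = q ^ C2 := by rw [hC2]; ring
  set T : ℕ := x / R with hT
  have hTC : q ^ C1 ≤ T := by
    rw [hT, Nat.le_div_iff_mul_le hR1]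
    calc q ^ C1 * R ≤ q ^ C1 * q ^ C2 := Nat.mul_le_mul_left _ hRle
      _ = q ^ (C1 + C2) := (pow_add q C1 C2).symm
      _ ≤ q ^ (C1 + C2 + 3) := Nat.pow_le_pow_right hq1 (by omega)
      _ ≤ x := hx
  have hT1 : 1 ≤ T := (Nat.one_le_pow _ _ hq1).trans hTC
  have hRT : R * T ≤ x := Nat.mul_div_le _ _
  have hx2 : x ≤ q ^ (C2 + 1) * T := by
    have h1 : x < R * (T + 1) := Nat.lt_mul_div_succ x hR1
    have h2 : R * (T + 1) ≤ R * (2 * T) := Nat.mul_le_mul_left _ (by omega)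
    have h3 : R * (2 * T) ≤ q ^ C2 * (q * T) := Nat.mul_le_mul hRle (Nat.mul_le_mul_right _ hq2)
    have h4 : q ^ C2 * (q * T) = q ^ (C2 + 1) * T := by ring
    omega
  have hcount := hsv q hqq1 F hFc hFp T hTC
  set G : Finset ℕ := (Ico T (2 * T)).filter (fun t => ∀ f ∈ F, Rough q (f.1 * t + f.2)) with hG
  have hGl : ∀ t ∈ G, ∀ g ∈ H, ∀ h ∈ H, Rough q (l t g h) := by
    intro t ht g hg h hh
    rw [hG, mem_filter] at ht
    rw [hlin t g hg h hh]
    exact ht.2 (Lq g h * M, l 0 g h) (by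
      rw [hFdef, mem_image]
      exact ⟨(g, h), mem_product.2 ⟨hg, hh⟩, rfl⟩)
  have hGT : ∀ t ∈ G, t < 2 * T := by
    intro t ht
    rw [hG, mem_filter, mem_Ico] at ht
    exact ht.1.2
  -- size of the values
  have hval : ∀ t ∈ G, ∀ g ∈ H, ∀ u, u ≤ (b + d * g) * (c + d * g) → u * l t g g ≤ x := by
    intro t ht g hg u hu
    have h1 := (hl t g hg g hg).2.1
    have h2 : l t g g ≤ Lq g g * S t + 1 := by
      rw [← h1]
      exact Nat.le_mul_of_pos_left _ hd
    have h3 := hLqm g hg g hg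
    have h4 : u * Lq g g ≤ L := by
      rw [← h3]
      exact Nat.mul_le_mul_right _ hu
    have h5 : u ≤ L := (Nat.le_mul_of_pos_right _ (hLq1 g hg g hg)).trans h4
    calc u * l t g g ≤ u * (Lq g g * S t + 1) := Nat.mul_le_mul_left _ h2
      _ = (u * Lq g g) * S t + u := by ring
      _ ≤ L * S t + L := Nat.add_le_add (Nat.mul_le_mul_right _ h4) h5
      _ = L * (S t + 1) := by ring
      _ ≤ L * (d * M * (t + 1)) := Nat.mul_le_mul_left _ (hS1 t)
      _ ≤ L * (d * M * (2 * T)) :=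
          Nat.mul_le_mul_left _ (Nat.mul_le_mul_left _ (hGT t ht))
      _ = R * T := by rw [hRdef]; ring
      _ ≤ x := hRT
  have hmemn : ∀ g ∈ H, ∀ t ∈ G, Lam K 1 (n t g) = e →
      n t g ∈ (Icc 1 x).filter (fun n => (∀ h ∈ H, Rough q (n + h)) ∧ Lam K 1 n = e) := by
    intro g hg t ht hse
    rw [mem_filter, mem_Icc]
    have h1 := (hl t g hg g hg)
    have h2 : c + d * g ≤ (c + d * g) * l t g g := Nat.le_mul_of_pos_right _ h1.1
    have h3 : g ≤ d * g := Nat.le_mul_of_pos_left _ hd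
    have h4 := hval t ht g hg (c + d * g) (Nat.le_mul_of_pos_left _ (by omega))
    refine ⟨⟨?_, ?_⟩, fun h hh => ?_, hse⟩
    · omega
    · omega
    · rw [(hl t g hg h hh).2.2.1]
      exact rough_mul (hR h hh).2 (hGl t ht g hg h hh)
  have hmemm : ∀ h ∈ H, ∀ t ∈ G, Lam K 1 (m t h) = e →
      m t h ∈ (Icc 1 x).filter (fun n => (∀ h ∈ H, Rough q (n + h)) ∧ Lam K 1 n = e) := by
    intro h hh t ht hse
    rw [mem_filter, mem_Icc]
    have h1 := (hl t h hh h hh)
    have h2 : b + d * h ≤ (b + d * h) * l t h h := Nat.le_mul_of_pos_right _ h1.1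
    have h3 : h ≤ d * h := Nat.le_mul_of_pos_left _ hd
    have h4 := hval t ht h hh (b + d * h) (Nat.le_mul_of_pos_right _ (by omega))
    refine ⟨⟨?_, ?_⟩, fun g hg => ?_, hse⟩
    · omega
    · omega
    · rw [(hl t g hg h hh).2.2.2]
      exact rough_mul (hR g hg).1 (hGl t ht g hg h hh)
  have hinjl : ∀ g ∈ H, ∀ t t', l t g g = l t' g g → t = t' := by
    intro g hg t t' h
    rw [hlin t g hg g hg, hlin t' g hg g hg, Nat.add_right_cancel_iff] at h
    exact Nat.eq_of_mul_eq_mul_left (Nat.mul_pos (hLq1 g hg g hg) hM1) h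
  have hcn : ∀ g ∈ K, (G.filter (fun t => Lam K 1 (n t g) = e)).card ≤ cnt H K q e x := by
    intro g hgK
    have hg := hKH hgK
    unfold cnt
    refine card_le_card_of_injOn (fun t => n t g) ?_ ?_
    · intro t ht
      rw [mem_coe, mem_filter] at ht
      exact hmemn g hg t ht.1 ht.2
    · intro t _ t' _ htt
      have h1 := (hl t g hg g hg).2.2.1
      have h2 := (hl t' g hg g hg).2.2.1
      have h3 : n t g = n t' g := htt
      rw [← h3, h1] at h2
      exact hinjl g hg t t' (Nat.eq_of_mul_eq_mul_left (by omega) h2)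
  have hcm : ∀ g ∈ K, (G.filter (fun t => Lam K 1 (m t g) = e)).card ≤ cnt H K q e x := by
    intro g hgK
    have hg := hKH hgK
    unfold cnt
    refine card_le_card_of_injOn (fun t => m t g) ?_ ?_
    · intro t ht
      rw [mem_coe, mem_filter] at ht
      exact hmemm g hg t ht.1 ht.2
    · intro t _ t' _ htt
      have h1 := (hl t g hg g hg).2.2.2
      have h2 := (hl t' g hg g hg).2.2.2
      have h3 : m t g = m t' g := htt
      rw [← h3, h1] at h2
      exact hinjl g hg t t' (Nat.eq_of_mul_eq_mul_left (by omega) h2)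
  have hGc : G.card ≤ 2 * K.card * cnt H K q e x := by
    have hsub : G ⊆ (K.biUnion fun g => G.filter (fun t => Lam K 1 (n t g) = e)) ∪
        (K.biUnion fun g => G.filter (fun t => Lam K 1 (m t g) = e)) := by
      intro t ht
      have h1 := hs t
      rw [hsg] at h1
      rcases exists_sign (fun g => Lam_pm K 1 (n t g)) (fun g => Lam_pm K 1 (m t g)) h1 he with
        ⟨g, hg, h2⟩ | ⟨g, hg, h2⟩
      · exact mem_union_left _ (mem_biUnion.2 ⟨g, hg, mem_filter.2 ⟨ht, h2⟩⟩)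
      · exact mem_union_right _ (mem_biUnion.2 ⟨g, hg, mem_filter.2 ⟨ht, h2⟩⟩)
    refine (card_le_card hsub).trans ((card_union_le _ _).trans ?_)
    have h1 := (card_biUnion_le (s := K)
      (t := fun g => G.filter (fun t => Lam K 1 (n t g) = e))).trans (sum_le_sum hcn)
    have h2 := (card_biUnion_le (s := K)
      (t := fun g => G.filter (fun t => Lam K 1 (m t g) = e))).trans (sum_le_sum hcm)
    rw [sum_const, smul_eq_mul] at h1 h2
    linarith
  calc x ≤ q ^ (C2 + 1) * T := hx2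
    _ ≤ q ^ (C2 + 1) * (q * (2 * K.card * cnt H K q e x)) :=
        Nat.mul_le_mul_left _ (hcount.trans (Nat.mul_le_mul_left _ hGc))
    _ ≤ q ^ (C2 + 1) * (q * (q * cnt H K q e x)) :=
        Nat.mul_le_mul_left _ (Nat.mul_le_mul_left _ (Nat.mul_le_mul_right _ hKq))
    _ = q ^ (C2 + 3) * cnt H K q e x := by ring
    _ ≤ q ^ (C1 + C2 + 3) * cnt H K q e x :=
        Nat.mul_le_mul_right _ (Nat.pow_le_pow_right hq1 (by omega))

end Pool.Agent.Lib.MP3efbeb.Odd
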