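import Pool.Agent.Lib.MP_3efbeb_nt.Odd.Spec

/-!
# Module RT: roots of a product of linear forms modulo a squarefree number
-/

set_option autoImplicit false

namespace Pool.Agent.Lib.MP3efbeb.Odd

open Finset
open scoped Classical

namespace RTM

lemma dvd_iff_of_modEq (F : Finset (ℕ × ℕ)) {n t t' : ℕ} (h : t ≡ t' [MOD n]) :
    n ∣ vF F t ↔ n ∣ vF F t' := by
  have h1 : (t : ZMod n) = t' := (ZMod.natCast_eq_natCast_iff _ _ _).2 h
  rw [← ZMod.natCast_eq_zero_iff, ← ZMod.natCast_eq_zero_iff]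
  unfold vF
  push_cast
  rw [h1]

lemma nu_one (F : Finset (ℕ × ℕ)) : nu F 1 = 1 := by
  unfold nu
  simp

lemma nu_mul (F : Finset (ℕ × ℕ)) {m n : ℕ} (h : Nat.Coprime m n) (hm : 0 < m) (hn : 0 < n) :
    nu F (m * n) = nu F m * nu F n := by
  unfold nu
  rw [← card_product]
  refine card_nbij' (fun t => (t % m, t % n)) (fun p => (Nat.chineseRemainder h p.1 p.2 : ℕ))
    ?_ ?_ ?_ ?_
  · intro t ht
    simp only [coe_filter, mem_range, Set.mem_ofPred_eq, coe_product, Set.mem_prod] at ht ⊢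
    obtain ⟨h1, h2⟩ := ht
    refine ⟨⟨Nat.mod_lt _ hm, ?_⟩, Nat.mod_lt _ hn, ?_⟩
    · exact (dvd_iff_of_modEq F (Nat.mod_modEq t m)).2 ((Dvd.intro _ rfl).trans h2)
    · exact (dvd_iff_of_modEq F (Nat.mod_modEq t n)).2 ((Dvd.intro_left _ rfl).trans h2)
  · intro p hp
    simp only [coe_filter, mem_range, Set.mem_ofPred_eq, coe_product, Set.mem_prod] at hp ⊢
    obtain ⟨⟨h1, h2⟩, h3, h4⟩ := hp
    refine ⟨Nat.chineseRemainder_lt_mul h _ _ hm.ne' hn.ne', h.mul_dvd_of_dvd_of_dvd ?_ ?_⟩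
    · exact (dvd_iff_of_modEq F (Nat.chineseRemainder h p.1 p.2).2.1).2 h2
    · exact (dvd_iff_of_modEq F (Nat.chineseRemainder h p.1 p.2).2.2).2 h4
  · intro t ht
    simp only [coe_filter, mem_range, Set.mem_ofPred_eq] at ht
    have h1 := (Nat.chineseRemainder h (t % m) (t % n)).2
    have h2 : (Nat.chineseRemainder h (t % m) (t % n) : ℕ) ≡ t [MOD m * n] :=
      (Nat.modEq_and_modEq_iff_modEq_mul h).1
        ⟨h1.1.trans (Nat.mod_modEq t m), h1.2.trans (Nat.mod_modEq t n)⟩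
    exact Nat.ModEq.eq_of_lt_of_lt h2 (Nat.chineseRemainder_lt_mul h _ _ hm.ne' hn.ne') ht.1
  · intro p hp
    simp only [coe_filter, mem_range, Set.mem_ofPred_eq, coe_product, Set.mem_prod] at hp
    obtain ⟨⟨h1, h2⟩, h3, h4⟩ := hp
    have h5 := (Nat.chineseRemainder h p.1 p.2).2
    refine Prod.ext ?_ ?_
    · change (Nat.chineseRemainder h p.1 p.2 : ℕ) % m = p.1
      rw [show (Nat.chineseRemainder h p.1 p.2 : ℕ) % m = p.1 % m from h5.1, Nat.mod_eq_of_lt h1]
    · change (Nat.chineseRemainder h p.1 p.2 : ℕ) % n = p.2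
      rw [show (Nat.chineseRemainder h p.1 p.2 : ℕ) % n = p.2 % n from h5.2, Nat.mod_eq_of_lt h3]

lemma nu_prod (F : Finset (ℕ × ℕ)) (s : Finset ℕ) (hs : ∀ p ∈ s, p.Prime) :
    nu F (∏ p ∈ s, p) = ∏ p ∈ s, nu F p := by
  induction s using Finset.induction_on with
  | empty => simp [nu_one]
  | insert a s ha ih =>
    have hs' : ∀ p ∈ s, p.Prime := fun p hp => hs p (mem_insert_of_mem hp)
    have hap : a.Prime := hs a (mem_insert_self _ _)
    rw [prod_insert ha, prod_insert ha, nu_mul, ih hs']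
    · refine Nat.Coprime.prod_right fun p hp => ?_
      rw [Nat.coprime_primes hap (hs' p hp)]
      rintro rfl
      exact ha hp
    · exact hap.pos
    · exact prod_pos fun p hp => (hs' p hp).pos

lemma nu_le (F : Finset (ℕ × ℕ)) (n : ℕ) : nu F n ≤ n := by
  unfold nu
  exact (card_filter_le _ _).trans (by simp)

/-- a residue class in a dyadic interval -/
lemma class_card (δ T r : ℕ) (hδ : 0 < δ) :
    |(((Ico T (2 * T)).filter (fun t => t ≡ r [MOD δ])).card : ℝ) - T / δ| ≤ 1 := by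
  have h := Nat.Ico_filter_modEq_card T (2 * T) hδ r
  have hδ' : (0 : ℚ) < δ := by exact_mod_cast hδ
  set c := (((Ico T (2 * T)).filter (fun t => t ≡ r [MOD δ])).card : ℤ) with hc
  set A := ⌈(((2 * T : ℕ) : ℚ) - r) / δ⌉ with hA
  set B := ⌈((T : ℚ) - r) / δ⌉ with hB
  have a1 := Int.le_ceil ((((2 * T : ℕ) : ℚ) - r) / δ)
  have a2 := Int.ceil_lt_add_one ((((2 * T : ℕ) : ℚ) - r) / δ)
  have b1 := Int.le_ceil (((T : ℚ) - r) / δ)
  have b2 := Int.ceil_lt_add_one (((T : ℚ) - r) / δ)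
  rw [← hA] at a1 a2
  rw [← hB] at b1 b2
  have e : (((2 * T : ℕ) : ℚ) - r) / δ = ((T : ℚ) - r) / δ + T / δ := by
    push_cast; ring
  rw [e] at a1 a2
  have hT : (0 : ℚ) ≤ (T : ℚ) / δ := by positivity
  have hq : |(c : ℚ) - T / δ| ≤ 1 := by
    have h' : (c : ℚ) = max ((A : ℚ) - B) 0 := by
      rw [h]; push_cast; rfl
    rw [h', abs_le]
    rcases le_total ((A : ℚ) - B) 0 with h0 | h0
    · rw [max_eq_right h0]
      constructor <;> linarith
    · rw [max_eq_left h0]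
      constructor <;> linarith
  have hr : |((c : ℚ) : ℝ) - ((T / δ : ℚ) : ℝ)| ≤ 1 := by
    exact_mod_cast hq
  have hc2 : ((c : ℚ) : ℝ) = (((Ico T (2 * T)).filter (fun t => t ≡ r [MOD δ])).card : ℝ) := by
    rw [hc]; push_cast; rfl
  rw [hc2] at hr
  push_cast at hr
  exact hr

end RTM

open RTM in
theorem specRT : SpecRT := by
  intro F δ T hδ
  have hδ0 : 0 < δ := Nat.pos_of_ne_zero hδ.ne_zero
  have hδR : (0 : ℝ) < δ := by exact_mod_cast hδ0
  have hprod : ∏ p ∈ δ.primeFactors, p = δ := Nat.prod_primeFactors_of_squarefree hδ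
  have hnu : nu F δ = ∏ p ∈ δ.primeFactors, nu F p := by
    conv_lhs => rw [← hprod]
    exact nu_prod F _ fun p hp => Nat.prime_of_mem_primeFactors hp
  have h1 : (T : ℝ) * ∏ p ∈ δ.primeFactors, ((nu F p : ℝ) / p) =
      ∑ r ∈ (range δ).filter (fun t => δ ∣ vF F t), (T : ℝ) / δ := by
    rw [sum_const, nsmul_eq_mul, prod_div_distrib, ← Nat.cast_prod, ← Nat.cast_prod, hprod, ← hnu]
    change (T : ℝ) * ((nu F δ : ℝ) / δ) = (nu F δ : ℝ) * (T / δ)
    ring
  have h2 : (((Ico T (2 * T)).filter (fun t => δ ∣ vF F t)).card : ℝ) =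
      ∑ r ∈ (range δ).filter (fun t => δ ∣ vF F t),
        (((Ico T (2 * T)).filter (fun t => t ≡ r [MOD δ])).card : ℝ) := by
    rw [← Nat.cast_sum]
    congr 1
    rw [card_eq_sum_card_fiberwise (f := fun t => t % δ)
      (t := (range δ).filter (fun t => δ ∣ vF F t))]
    · refine sum_congr rfl fun r hr => ?_
      rw [mem_filter, mem_range] at hr
      congr 1
      ext t
      simp only [mem_filter]
      constructor
      · rintro ⟨⟨h3, h4⟩, h5⟩
        refine ⟨h3, ?_⟩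
        change t % δ = r % δ
        rw [h5, Nat.mod_eq_of_lt hr.1]
      · rintro ⟨h3, h4⟩
        refine ⟨⟨h3, (dvd_iff_of_modEq F h4).2 hr.2⟩, ?_⟩
        have h5 : t % δ = r % δ := h4
        rw [h5, Nat.mod_eq_of_lt hr.1]
    · intro t ht
      simp only [coe_filter, mem_Ico, Set.mem_ofPred_eq, mem_range] at ht ⊢
      exact ⟨Nat.mod_lt _ hδ0, (dvd_iff_of_modEq F (Nat.mod_modEq t δ)).2 ht.2⟩
  rw [h1, h2, ← sum_sub_distrib]
  refine (abs_sum_le_sum_abs _ _).trans ?_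
  refine (sum_le_sum fun r _ => class_card δ T r hδ0).trans ?_
  rw [sum_const, nsmul_eq_mul, mul_one]
  exact_mod_cast nu_le F δ

end Pool.Agent.Lib.MP3efbeb.Odd
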