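import Pool.Agent.Lib.MP_3efbeb_nt.Odd.Spec

/-!
# Module SV: the sieve lemma for linear forms
-/

set_option autoImplicit false

namespace Pool.Agent.Lib.MP3efbeb.Odd

open Finset
open scoped Classical
open Pool.Agent.Lib.MP391708.QPA (PB rInd)

namespace SVM

lemma one_add_log_le {q : ℕ} (hq : 1 ≤ q) : 1 + Real.log q ≤ 2 * √(q : ℝ) := by
  have hq' : (0 : ℝ) < q := by exact_mod_cast hq
  have h1 : Real.log (√(q : ℝ)) ≤ √(q : ℝ) - 1 :=
    Real.log_le_sub_one_of_pos (Real.sqrt_pos.2 hq')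
  have h2 : Real.log (√(q : ℝ)) = Real.log q / 2 := Real.log_sqrt hq'.le
  rw [h2] at h1
  have h3 : (1 : ℝ) ≤ √(q : ℝ) := by
    rw [Real.one_le_sqrt]
    exact_mod_cast hq
  linarith

lemma dvd_form {F : Finset (ℕ × ℕ)} {p t : ℕ} (hp : p.Prime) (h : p ∣ vF F t) :
    ∃ f ∈ F, p ∣ f.1 * t + f.2 := by
  unfold vF at h
  exact (Prime.dvd_finsetProd_iff hp.prime _).1 h

end SVM

open SVM in
theorem specSV (hFLK : SpecFLK) (hVLB : SpecVLB) (hRT : SpecRT) (hNU : SpecNU) : SpecSV := by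
  intro K0
  obtain ⟨C0, hC0, hF⟩ := hFLK K0
  obtain ⟨qv, hqv2, hV⟩ := hVLB K0
  set b : ℕ := ⌈2 * C0⌉₊ with hb
  set E : ℕ := 8 * b + 16 with hE
  have hbC : C0 * Real.exp (-(b : ℝ)) ≤ 1 / 2 := by
    have h1 : 2 * C0 ≤ (b : ℝ) := Nat.le_ceil _
    have h2 : (b : ℝ) + 1 ≤ Real.exp b := Real.add_one_le_exp _
    rw [Real.exp_neg, ← div_eq_mul_inv, div_le_iff₀ (Real.exp_pos _)]
    linarith
  refine ⟨2 * E + 2, max qv ⌈4 * C0 ^ 2⌉₊, fun q hq F hFc hf T hT => ?_⟩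
  have hqv : qv ≤ q := (le_max_left _ _).trans hq
  have hq2 : 2 ≤ q := hqv2.trans hqv
  have hq1 : 1 ≤ q := by omega
  have hqR : (0 : ℝ) < q := by exact_mod_cast hq1
  have hqC : 4 * C0 ^ 2 ≤ (q : ℝ) :=
    (Nat.le_ceil _).trans (by exact_mod_cast (le_max_right _ _).trans hq)
  -- the density
  set g : ℕ → ℝ := fun p => if 2 * K0 < p ∧ p < q then (nu F p : ℝ) / p else 0 with hg
  have hgb : ∀ p : ℕ, p.Prime → 0 ≤ g p ∧ g p ≤ K0 / (p : ℝ) ∧ g p ≤ 1 / 2 := by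
    intro p hp
    have hp0 : (0 : ℝ) < p := by exact_mod_cast hp.pos
    simp only [hg]
    split_ifs with h
    · have h1 : nu F p ≤ K0 := (hNU F p hp fun f hfF => (hf f hfF p hp).2 h.1 h.2).trans hFc
      have h1' : (nu F p : ℝ) ≤ K0 := by exact_mod_cast h1
      have h2 : (nu F p : ℝ) / p ≤ K0 / p := by gcongr
      refine ⟨by positivity, h2, h2.trans ?_⟩
      rw [div_le_iff₀ hp0]
      have h3 : ((2 * K0 : ℕ) : ℝ) ≤ p := by exact_mod_cast h.1.le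
      push_cast at h3
      linarith
    · exact ⟨le_rfl, by positivity, by norm_num⟩
  have hP4 := hV q hqv g hgb
  have hmain := hF b (q : ℝ) (by exact_mod_cast hq2) (Ico T (2 * T)) (vF F) (fun _ => 1) T g
    (by positivity) (fun _ _ => zero_le_one) hgb
  set P : ℝ := ∏ p ∈ PB (q : ℝ), (1 - g p) with hP
  -- the remainders
  have hrem : ∑ δ ∈ (Icc 1 ⌊(q : ℝ) ^ (8 * b + 16)⌋₊).filter
      (fun δ => Squarefree δ ∧ ∀ p : ℕ, p.Prime → p ∣ δ → (p : ℝ) < q),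
      |(∑ i ∈ (Ico T (2 * T)).filter (fun i => δ ∣ vF F i), (1 : ℝ)) -
        (T : ℝ) * ∏ p ∈ δ.primeFactors, g p| ≤ (q : ℝ) ^ (2 * E) := by
    have hfl : ⌊(q : ℝ) ^ (8 * b + 16)⌋₊ = q ^ E := by
      rw [← Nat.cast_pow, Nat.floor_natCast]
    have hterm : ∀ δ ∈ (Icc 1 ⌊(q : ℝ) ^ (8 * b + 16)⌋₊).filter
        (fun δ => Squarefree δ ∧ ∀ p : ℕ, p.Prime → p ∣ δ → (p : ℝ) < q),
        |(∑ i ∈ (Ico T (2 * T)).filter (fun i => δ ∣ vF F i), (1 : ℝ)) -
          (T : ℝ) * ∏ p ∈ δ.primeFactors, g p| ≤ (q : ℝ) ^ E := by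
      intro δ hδ
      rw [mem_filter, mem_Icc, hfl] at hδ
      obtain ⟨⟨hδ1, hδ2⟩, hδs, hδq⟩ := hδ
      have hδE : (δ : ℝ) ≤ (q : ℝ) ^ E := by exact_mod_cast hδ2
      by_cases hsm : ∀ p : ℕ, p.Prime → p ∣ δ → 2 * K0 < p
      · have h1 : ∏ p ∈ δ.primeFactors, g p = ∏ p ∈ δ.primeFactors, ((nu F p : ℝ) / p) := by
          refine prod_congr rfl fun p hp => ?_
          have hpp := Nat.prime_of_mem_primeFactors hp
          have hpd := Nat.dvd_of_mem_primeFactors hp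
          have h2 : p < q := by exact_mod_cast hδq p hpp hpd
          simp only [hg]
          rw [if_pos ⟨hsm p hpp hpd, h2⟩]
        rw [h1]
        have h3 := hRT F δ T hδs
        rw [sum_const, nsmul_eq_mul, mul_one]
        exact h3.trans hδE
      · push Not at hsm
        obtain ⟨p, hpp, hpd, hp2⟩ := hsm
        have h1 : ∏ p ∈ δ.primeFactors, g p = 0 := by
          refine prod_eq_zero (i := p) (Nat.mem_primeFactors.2 ⟨hpp, hpd, by omega⟩) ?_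
          simp only [hg]
          rw [if_neg]
          rintro ⟨h2, -⟩
          omega
        have h2 : (Ico T (2 * T)).filter (fun i => δ ∣ vF F i) = ∅ := by
          rw [filter_eq_empty_iff]
          intro t _ ht
          obtain ⟨f, hfF, hfd⟩ := dvd_form hpp (hpd.trans ht)
          exact (hf f hfF p hpp).1 hp2 t hfd
        rw [h1, h2, sum_empty, mul_zero, sub_zero, abs_zero]
        positivity
    refine (sum_le_sum hterm).trans ?_
    have hsplit : (q : ℝ) ^ (2 * E) = (q : ℝ) ^ E * (q : ℝ) ^ E := by ring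
    rw [sum_const, nsmul_eq_mul, hsplit]
    refine mul_le_mul_of_nonneg_right ?_ (by positivity)
    have h1 := card_filter_le (Icc 1 ⌊(q : ℝ) ^ (8 * b + 16)⌋₊)
      (fun δ => Squarefree δ ∧ ∀ p : ℕ, p.Prime → p ∣ δ → (p : ℝ) < q)
    rw [hfl, Nat.card_Icc, Nat.add_sub_cancel] at h1
    rw [hfl]
    exact_mod_cast h1
  -- the log factor
  have hlog : C0 * (1 + Real.log q) ≤ q := by
    have h1 := one_add_log_le hq1
    have h2 : 2 * C0 ≤ √(q : ℝ) := by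
      rw [Real.le_sqrt (by positivity) hqR.le]
      nlinarith
    have h3 : √(q : ℝ) * √(q : ℝ) = q := Real.mul_self_sqrt hqR.le
    have h4 : 0 ≤ √(q : ℝ) := Real.sqrt_nonneg _
    calc C0 * (1 + Real.log q) ≤ C0 * (2 * √(q : ℝ)) := by gcongr
      _ = (2 * C0) * √(q : ℝ) := by ring
      _ ≤ √(q : ℝ) * √(q : ℝ) := by gcongr
      _ = q := h3
  -- the count
  have hcount : (∑ t ∈ Ico T (2 * T), (1 : ℝ) * rInd (q : ℝ) (vF F t)) ≤
      (((Ico T (2 * T)).filter (fun t => ∀ f ∈ F, Rough q (f.1 * t + f.2))).card : ℝ) := by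
    rw [card_filter, Nat.cast_sum]
    refine sum_le_sum fun t _ => ?_
    rw [one_mul]
    unfold rInd
    split_ifs with h1 h2
    · simp
    · exfalso
      refine h2 fun f hfF p hp hpd => ?_
      have h3 := h1 p hp (hpd.trans (dvd_prod_of_mem (fun f : ℕ × ℕ => f.1 * t + f.2) hfF))
      exact_mod_cast h3
    · simp
    · simp
  set W := ((Ico T (2 * T)).filter (fun t => ∀ f ∈ F, Rough q (f.1 * t + f.2))).card with hW
  have hP0 : 0 ≤ P := le_trans (by positivity) hP4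
  have hTq : (q : ℝ) ^ (2 * E + 2) ≤ T := by exact_mod_cast hT
  have h1 := (abs_le.1 hmain).1
  have hrem' : C0 * (1 + Real.log q) * ∑ δ ∈ (Icc 1 ⌊(q : ℝ) ^ (8 * b + 16)⌋₊).filter
      (fun δ => Squarefree δ ∧ ∀ p : ℕ, p.Prime → p ∣ δ → (p : ℝ) < q),
      |(∑ i ∈ (Ico T (2 * T)).filter (fun i => δ ∣ vF F i), (1 : ℝ)) -
        (T : ℝ) * ∏ p ∈ δ.primeFactors, g p| ≤ (q : ℝ) ^ (2 * E + 1) := by
    have h2 : (q : ℝ) ^ (2 * E + 1) = q * (q : ℝ) ^ (2 * E) := by ring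
    rw [h2]
    refine mul_le_mul hlog hrem (sum_nonneg fun _ _ => abs_nonneg _) hqR.le
  have hTP : (T : ℝ) * P ≥ T * (4 / q) := by gcongr
  have h3 : C0 * Real.exp (-(b : ℝ)) * T * P ≤ 1 / 2 * (T * P) := by
    have : 0 ≤ (T : ℝ) * P := by positivity
    nlinarith
  have h4 : (T : ℝ) * (4 / q) / 2 - (q : ℝ) ^ (2 * E + 1) ≤ W := by
    linarith
  have h5 : (T : ℝ) ≤ q * W := by
    have h6 := mul_le_mul_of_nonneg_left h4 hqR.le
    have h7 : (q : ℝ) * ((T : ℝ) * (4 / q) / 2 - (q : ℝ) ^ (2 * E + 1)) =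
        2 * T - (q : ℝ) ^ (2 * E + 2) := by
      field_simp
      ring
    rw [h7] at h6
    linarith
  exact_mod_cast h5

end Pool.Agent.Lib.MP3efbeb.Odd
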