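import Pool.Agent.Lib.MP_3efbeb_nt.Odd.Spec
import Pool.Agent.Lib.MP_391708_nt.QPA.FL

/-!
# Module VLB: lower bound for the sieve product
-/

set_option autoImplicit false

namespace Pool.Agent.Lib.MP3efbeb.Odd

open Finset
open scoped Classical
open Pool.Agent.Lib.MP391708.QPA (PB rInd)

namespace VLBM

open Pool.Agent.Lib.MP391708.QPA.FL

lemma sq_le (K : ℕ) : (K + 1) ^ 2 ≤ 4 * 2 ^ K := by
  induction K with
  | zero => norm_num
  | succ n ih =>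
    rcases Nat.lt_or_ge n 2 with h | h
    · interval_cases n <;> norm_num
    · have : (n + 1 + 1) ^ 2 ≤ 2 * (n + 1) ^ 2 := by nlinarith
      calc (n + 1 + 1) ^ 2 ≤ 2 * (n + 1) ^ 2 := this
        _ ≤ 2 * (4 * 2 ^ n) := by omega
        _ = 4 * 2 ^ (n + 1) := by ring

lemma block {κ : ℕ} {z : ℝ} {g : ℕ → ℝ}
    (hg : ∀ p : ℕ, p.Prime → 0 ≤ g p ∧ g p ≤ κ / (p : ℝ) ∧ g p ≤ 1 / 2) (j : ℕ) :
    Real.exp (-(8 * κ)) ≤ ∏ p ∈ Blk z j, (1 - g p) := by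
  have hgB : ∀ p ∈ Blk z j, 0 ≤ g p ∧ g p ≤ κ / (p : ℝ) ∧ g p ≤ 1 / 2 :=
    fun p hp => hg p (mem_Blk.1 hp).1
  have hG : ∑ p ∈ Blk z j, g p ≤ 4 * κ := by
    have h1 : ∑ p ∈ Blk z j, g p ≤ ∑ p ∈ Blk z j, (κ : ℝ) / 2 * (2 / (p : ℝ)) := by
      refine sum_le_sum fun p hp => ?_
      refine (hgB p hp).2.1.trans (le_of_eq ?_)
      ring
    rw [← mul_sum] at h1
    have h2 := mul_le_mul_of_nonneg_left (sum_Blk_le z j) (show (0 : ℝ) ≤ κ / 2 by positivity)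
    linarith
  calc Real.exp (-(8 * κ)) ≤ Real.exp (∑ p ∈ Blk z j, -(2 * g p)) := by
        rw [sum_neg_distrib, ← mul_sum]
        exact Real.exp_le_exp.2 (by linarith)
    _ = ∏ p ∈ Blk z j, Real.exp (-(2 * g p)) := Real.exp_sum _ _
    _ ≤ _ := prod_le_prod (fun _ _ => (Real.exp_pos _).le)
        (fun p hp => one_sub_ge (hgB p hp).1 ((hgB p hp).2.2.trans (by norm_num)))

end VLBM

open VLBM Pool.Agent.Lib.MP391708.QPA.FL in
/-- VLB. -/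
theorem specVLB : SpecVLB := by
  intro κ
  refine ⟨⌈Real.exp (512 * (κ : ℝ) ^ 2 + 4)⌉₊ + 2, by omega, ?_⟩
  intro q hq g hg
  have hq1 : Real.exp (512 * (κ : ℝ) ^ 2 + 4) ≤ q := by
    have h1 : ⌈Real.exp (512 * (κ : ℝ) ^ 2 + 4)⌉₊ ≤ q := by omega
    exact (Nat.le_ceil _).trans (by exact_mod_cast h1)
  have hq2 : (2 : ℝ) ≤ q := by
    have : 2 ≤ q := by omega
    exact_mod_cast this
  have hq0 : (0 : ℝ) < q := by linarith
  have hlog : 512 * (κ : ℝ) ^ 2 + 4 ≤ Real.log q := (Real.le_log_iff_exp_le hq0).2 hq1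
  obtain ⟨K, hK1, hK2⟩ := exists_K hq2
  have hprod : ∏ p ∈ PB (q : ℝ), (1 - g p) =
      ∏ j ∈ range (K + 1), ∏ p ∈ Blk (q : ℝ) j, (1 - g p) := by
    rw [← biUnion_Blk hK2, prod_biUnion]
    intro i _ j _ hij
    exact Blk_disjoint _ i j hij
  have h1 : Real.exp (-(8 * κ)) ^ (K + 1) ≤ ∏ p ∈ PB (q : ℝ), (1 - g p) := by
    rw [hprod]
    calc Real.exp (-(8 * κ)) ^ (K + 1) = ∏ _j ∈ range (K + 1), Real.exp (-(8 * κ)) := by simp
      _ ≤ _ := prod_le_prod (fun _ _ => (Real.exp_pos _).le) (fun j _ => block hg j)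
  refine le_trans ?_ h1
  rw [← Real.exp_nat_mul, div_le_iff₀ hq0]
  have h2 : Real.log ((2 : ℝ) ^ 2 ^ K) ≤ Real.log q := Real.log_le_log (by positivity) hK1
  rw [Real.log_pow] at h2
  have h3 := Real.log_two_gt_d9
  have h4 : ((K : ℝ) + 1) ^ 2 ≤ 4 * 2 ^ K := by exact_mod_cast sq_le K
  have h5 : (2 : ℝ) ^ K / 2 ≤ Real.log q := by
    push_cast at h2
    have h6 : (0 : ℝ) < 2 ^ K := by positivity
    nlinarith
  have h7 : 8 * (κ : ℝ) * (K + 1) ≤ ((K : ℝ) + 1) ^ 2 / 16 + 256 * (κ : ℝ) ^ 2 := by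
    nlinarith [sq_nonneg (((K : ℝ) + 1) / 4 - 16 * κ)]
  have h8 : 8 * (κ : ℝ) * (K + 1) + 2 ≤ Real.log q := by
    linarith
  have h9 : (4 : ℝ) ≤ Real.exp 2 := by
    have := Real.quadratic_le_exp_of_nonneg (show (0 : ℝ) ≤ 2 by norm_num)
    linarith
  have h10 : Real.exp (8 * (κ : ℝ) * (K + 1) + 2) ≤ q := by
    rw [← Real.exp_log hq0]
    exact Real.exp_le_exp.2 h8
  calc (4 : ℝ) ≤ Real.exp 2 := h9
    _ = Real.exp (((K + 1 : ℕ) : ℝ) * -(8 * (κ : ℝ))) * Real.exp (8 * (κ : ℝ) * (K + 1) + 2) := by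
        rw [← Real.exp_add]
        congr 1
        push_cast
        ring
    _ ≤ _ := mul_le_mul_of_nonneg_left h10 (Real.exp_pos _).le

end Pool.Agent.Lib.MP3efbeb.Odd
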