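import Pool.Agent.Lib.MP_3efbeb_nt.Odd.CFG
import Pool.Agent.Lib.MP_3efbeb_nt.Odd.BIL
import Pool.Agent.Lib.MP_3efbeb_nt.Odd.CRT
import Pool.Agent.Lib.MP_3efbeb_nt.Odd.FLK
import Pool.Agent.Lib.MP_3efbeb_nt.Odd.VLB
import Pool.Agent.Lib.MP_3efbeb_nt.Odd.RT
import Pool.Agent.Lib.MP_3efbeb_nt.Odd.NU
import Pool.Agent.Lib.MP_3efbeb_nt.Odd.SV
import Pool.Agent.Lib.MP_3efbeb_nt.Odd.PRI
import Pool.Agent.Lib.MP_3efbeb_nt.Odd.QB
import Pool.Agent.Lib.MP_3efbeb_nt.Odd.QA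
import Pool.Agent.Lib.MP_3efbeb_nt.Odd.FIN
import Pool.Agent.Lib.MP_3efbeb_nt.Odd.COR

/-!
# Assembly
-/

set_option autoImplicit false

namespace Pool.Agent.Lib.MP3efbeb.Odd

theorem main_sv : SpecSV := specSV specFLK specVLB specRT specNU

theorem main_fin : SpecFIN :=
  specFIN (specQA main_sv specCFG specCRT (specQB main_sv specBIL)) specPRI

end Pool.Agent.Lib.MP3efbeb.Odd
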