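import Pool.Agent.Lib.MP_3efbeb_nt.Odd.Spec

/-!
# Module CFG: the relation
-/

set_option autoImplicit false

namespace Pool.Agent.Lib.MP3efbeb.Odd

open Finset
open scoped Classical

namespace CFGM

theorem lam_mul {a b : ℕ} (ha : a ≠ 0) (hb : b ≠ 0) : lam (a * b) = lam a * lam b := by
  unfold lam
  rw [(Nat.perm_primeFactorsList_mul ha hb).length_eq, List.length_append, pow_add]

theorem lam_sq (n : ℕ) : lam n * lam n = 1 := by
  unfold lam
  rw [← mul_pow]
  norm_num

theorem lam_prime {p : ℕ} (hp : p.Prime) : lam p = -1 := by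
  unfold lam
  rw [Nat.primeFactorsList_prime hp]
  simp

theorem Lam_sq (K : Finset ℕ) (d b : ℕ) : Lam K d b * Lam K d b = 1 := by
  unfold Lam
  rw [← prod_mul_distrib]
  exact prod_eq_one fun h _ => lam_sq _

/-- the product for a fixed `h` -/
theorem fixed (K : Finset ℕ) (r X D h : ℕ) (hh : h ∈ K) :
    ∏ A ∈ (UU K r).powerset, lam (X + D * EE K r A + (1 + A.card * D) * h) = 1 := by
  have hu : (Sum.inl h : ℕ ⊕ ℕ) ∈ UU K r := by
    unfold UU
    exact inl_mem_disjSum.2 hh
  set U' := (UU K r).erase (Sum.inl h) with hU'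
  have hins : UU K r = insert (Sum.inl h) U' := (insert_erase hu).symm
  have hnot : (Sum.inl h : ℕ ⊕ ℕ) ∉ U' := notMem_erase _ _
  have key : ∀ A ∈ U'.powerset, lam (X + D * EE K r (insert (Sum.inl h) A) +
      (1 + (insert (Sum.inl h) A).card * D) * h) =
      lam (X + D * EE K r A + (1 + A.card * D) * h) := by
    intro A hA
    rw [mem_powerset] at hA
    have hnA : (Sum.inl h : ℕ ⊕ ℕ) ∉ A := fun h' => hnot (hA h')
    have h1 : EE K r A = h + EE K r (insert (Sum.inl h) A) := by
      unfold EE
      have h2 : UU K r \ A = insert (Sum.inl h) (UU K r \ insert (Sum.inl h) A) := by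
        ext u
        simp only [mem_sdiff, mem_insert, not_or]
        constructor
        · rintro ⟨h3, h4⟩
          by_cases h5 : u = Sum.inl h
          · exact Or.inl h5
          · exact Or.inr ⟨h3, h5, h4⟩
        · rintro (rfl | ⟨h3, -, h4⟩)
          · exact ⟨hu, hnA⟩
          · exact ⟨h3, h4⟩
      rw [h2, sum_insert (by simp)]
      rfl
    rw [card_insert_of_notMem hnA, h1]
    congr 1
    ring
  have hpow : ∏ A ∈ (UU K r).powerset, lam (X + D * EE K r A + (1 + A.card * D) * h) =
      (∏ A ∈ U'.powerset, lam (X + D * EE K r A + (1 + A.card * D) * h)) *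
      ∏ A ∈ U'.powerset, lam (X + D * EE K r (insert (Sum.inl h) A) +
        (1 + (insert (Sum.inl h) A).card * D) * h) := by
    conv_lhs => rw [hins]
    exact prod_powerset_insert hnot _
  rw [hpow, prod_congr rfl key, ← prod_mul_distrib]
  exact prod_eq_one fun A _ => lam_sq _

theorem total (K : Finset ℕ) (r X D : ℕ) :
    ∏ A ∈ (UU K r).powerset, Lam K (1 + A.card * D) (X + D * EE K r A) = 1 := by
  unfold Lam
  rw [prod_comm]
  exact prod_eq_one fun h hh => fixed K r X D h hh

end CFGM

open CFGM in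
theorem specCFG : SpecCFG := by
  intro K r m q D Y hcard hodd hq hqD hY hyp
  have hU : (UU K r).card = 2 ^ m := by
    unfold UU
    rw [card_disjSum, card_range, hcard]
  set f : Finset (ℕ ⊕ ℕ) → ℤ := fun A => Lam K (1 + A.card * D) (q * Y + D * EE K r A) with hf
  have htot : ∏ A ∈ (UU K r).powerset, f A = 1 := total K r (q * Y) D
  rw [prod_powerset, hU] at htot
  -- the middle levels
  have hmid : ∀ v, 0 < v → v < 2 ^ m → ∏ A ∈ powersetCard v (UU K r), f A = 1 := by
    intro v h0 h1
    by_cases hne : (powersetCard v (UU K r)).Nonempty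
    · obtain ⟨A0, hA0⟩ := hne
      have h2 : ∀ A ∈ powersetCard v (UU K r), f A = f A0 := by
        intro A hA
        rw [mem_powersetCard] at hA hA0
        have h5 := hyp A (mem_powerset.2 hA.1) A0 (mem_powerset.2 hA0.1) (hA.2.trans hA0.2.symm)
          (by omega) (by omega)
        have h6 : A.card = A0.card := hA.2.trans hA0.2.symm
        change Lam K (1 + A.card * D) (q * Y + D * EE K r A) =
          Lam K (1 + A0.card * D) (q * Y + D * EE K r A0)
        rw [h5, h6]
      rw [prod_congr rfl h2, prod_const, card_powersetCard, hU]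
      have h3 : Even ((2 ^ m).choose v) :=
        even_iff_two_dvd.2 (Nat.prime_two.dvd_choose_pow (by omega : v ≠ 0)
          (by omega : v ≠ 2 ^ m))
      obtain ⟨c, hc⟩ := h3
      rw [hc, pow_add, ← mul_pow, Lam_sq, one_pow]
    · rw [not_nonempty_iff_eq_empty.1 hne, prod_empty]
  have hpos : 0 < 2 ^ m := by positivity
  have h0 : ∏ A ∈ powersetCard 0 (UU K r), f A = Lam K 1 (q * Y + D * ∑ h ∈ K, h) := by
    rw [powersetCard_zero, prod_singleton]
    simp only [hf, card_empty, zero_mul, add_zero]
    congr 3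
    unfold EE UU
    rw [sdiff_empty, sum_disjSum]
    simp [wt]
  have h1 : ∏ A ∈ powersetCard (2 ^ m) (UU K r), f A = - Lam K 1 Y := by
    rw [← hU, powersetCard_self, prod_singleton]
    simp only [hf]
    have e1 : EE K r (UU K r) = 0 := by
      unfold EE
      rw [sdiff_self]
      rfl
    rw [e1, hU, ← hqD, mul_zero, add_zero]
    unfold Lam
    have e2 : ∀ h ∈ K, lam (q * Y + q * h) = -1 * lam (Y + 1 * h) := by
      intro h _
      rw [← mul_add, lam_mul hq.ne_zero (by omega), lam_prime hq, one_mul]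
    rw [prod_congr rfl e2, prod_mul_distrib, prod_const, hodd.neg_one_pow]
    ring
  have h2 : ∏ v ∈ range (2 ^ m + 1), ∏ A ∈ powersetCard v (UU K r), f A =
      (∏ A ∈ powersetCard 0 (UU K r), f A) * ∏ A ∈ powersetCard (2 ^ m) (UU K r), f A := by
    rw [prod_range_succ]
    congr 1
    rw [← prod_range_mul_prod_Ico _ (show 1 ≤ 2 ^ m by omega), prod_range_one]
    rw [prod_eq_one (s := Ico 1 (2 ^ m)) fun v hv => by
      rw [mem_Ico] at hv
      exact hmid v (by omega) hv.2]
    rw [mul_one]
  rw [h2, h0, h1] at htot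
  linarith

end Pool.Agent.Lib.MP3efbeb.Odd
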