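import Mathlib

/-!
# MP_3efbeb_nt, odd order: definitions

Parity of the number of prime factors of rough admissible tuples of odd order.
-/

set_option autoImplicit false

namespace Pool.Agent.Lib.MP3efbeb.Odd

open scoped Classical

noncomputable section

/-- for every prime `p` some shift of `H` avoids the class `0` modulo `p` -/
def Admissible (H : Finset ℕ) : Prop := ∀ p : ℕ, p.Prime → ∃ a : ℕ, ∀ h ∈ H, ¬ p ∣ a + h

/-- all prime factors of `n` are `≥ z` -/
def Rough (z n : ℕ) : Prop := ∀ p : ℕ, p.Prime → p ∣ n → z ≤ p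

/-- the Liouville function (`= 1` at `0`) -/
def lam (n : ℕ) : ℤ := (-1) ^ n.primeFactorsList.length

/-- `∏_{h ∈ K} λ(b + d h)` -/
def Lam (K : Finset ℕ) (d b : ℕ) : ℤ := ∏ h ∈ K, lam (b + d * h)

/-- the number of `1 ≤ n ≤ x` with all `n + h` (`h ∈ H`) rough and `∏_{h ∈ K} λ(n + h) = e` -/
def cnt (H K : Finset ℕ) (z : ℕ) (e : ℤ) (x : ℕ) : ℕ :=
  ((Finset.Icc 1 x).filter (fun n => (∀ h ∈ H, Rough z (n + h)) ∧ Lam K 1 n = e)).card

/-- the index set: `K` and `r` dummy elements -/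
def UU (K : Finset ℕ) (r : ℕ) : Finset (ℕ ⊕ ℕ) := K.disjSum (Finset.range r)

/-- the weights: `h` for `inl h`, `0` for the dummy elements -/
def wt : ℕ ⊕ ℕ → ℕ := Sum.elim (fun h => h) (fun _ => 0)

/-- `∑_{u ∈ U ∖ A} w(u)` -/
def EE (K : Finset ℕ) (r : ℕ) (A : Finset (ℕ ⊕ ℕ)) : ℕ := ∑ u ∈ UU K r \ A, wt u

/-- the value at `t` of the product of the linear forms of `F` -/
def vF (F : Finset (ℕ × ℕ)) (t : ℕ) : ℕ := ∏ f ∈ F, (f.1 * t + f.2)

/-- the number of roots of the product modulo `n` -/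
def nu (F : Finset (ℕ × ℕ)) (n : ℕ) : ℕ := ((Finset.range n).filter (fun t => n ∣ vF F t)).card

end

end Pool.Agent.Lib.MP3efbeb.Odd
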