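import Pool.Agent.Lib.MP_3efbeb_nt.Odd.Spec

/-!
# Module QA: the configuration
-/

set_option autoImplicit false

namespace Pool.Agent.Lib.MP3efbeb.Odd.QAM

open Finset
open scoped Classical

lemma lam_or (n : ℕ) : lam n = 1 ∨ lam n = -1 := neg_one_pow_eq_or ℤ _

lemma Lam_or (K : Finset ℕ) (d b : ℕ) : Lam K d b = 1 ∨ Lam K d b = -1 := by
  unfold Lam
  induction K using Finset.induction_on with
  | empty => left; simp
  | insert q K hq ih =>
    rw [Finset.prod_insert hq]
    rcases lam_or (b + d * q) with h | h <;> rcases ih with h' | h' <;> rw [h, h'] <;> simp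

lemma mul_eq_neg {x y : ℤ} (hx : x = 1 ∨ x = -1) (hy : y = 1 ∨ y = -1) (h : x ≠ y) :
    x * y = -1 := by
  rcases hx with hx | hx <;> rcases hy with hy | hy <;> subst hx <;> subst hy <;> simp at h ⊢

lemma card_UU (K : Finset ℕ) (r : ℕ) : (UU K r).card = K.card + r := by
  unfold UU
  rw [Finset.card_disjSum, Finset.card_range]

lemma EE_empty (K : Finset ℕ) (r : ℕ) : EE K r ∅ = ∑ h ∈ K, h := by
  unfold EE UU
  rw [Finset.sdiff_empty, Finset.sum_disjSum]
  simp [wt]

lemma EE_full (K : Finset ℕ) (r : ℕ) : EE K r (UU K r) = 0 := by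
  unfold EE
  simp

lemma EE_le (K : Finset ℕ) (r : ℕ) (A : Finset (ℕ ⊕ ℕ)) : EE K r A ≤ ∑ h ∈ K, h := by
  rw [← EE_empty K r]
  unfold EE
  exact Finset.sum_le_sum_of_subset (Finset.sdiff_subset_sdiff le_rfl (Finset.empty_subset _))

/-- the linear forms of the configuration -/
noncomputable def form (K : Finset ℕ) (r q D M y0 : ℕ) (P : Finset (ℕ ⊕ ℕ) × ℕ) : ℕ × ℕ :=
  (q * M, q * y0 + D * EE K r P.1 + (1 + P.1.card * D) * P.2)

lemma Rough.of_dvd {z a b : ℕ} (h : Rough z b) (hab : a ∣ b) : Rough z a :=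
  fun p hp hd => h p hp (hd.trans hab)

end Pool.Agent.Lib.MP3efbeb.Odd.QAM

namespace Pool.Agent.Lib.MP3efbeb.Odd

open Finset QAM
open scoped Classical

theorem specQA (hSV : SpecSV) (hCFG : SpecCFG) (hCRT : SpecCRT) (hQB : SpecQB) : SpecQA := by
  intro H K hadm hK hodd
  set m := K.card with hm
  have h2m : m < 2 ^ m := Nat.lt_two_pow_self
  set r := 2 ^ m - m with hr
  have hkr : K.card + r = 2 ^ m := by omega
  set K0 := 2 ^ (2 ^ m) * H.card + H.card ^ 2 with hK0
  set M := (2 * K0).factorial with hM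
  have hM1 : 1 ≤ M := Nat.factorial_pos _
  obtain ⟨C1, q1, hsv⟩ := hSV K0
  obtain ⟨C2, q2, hqb⟩ := hQB H K hK hodd (C1 + 4)
  obtain ⟨y0, hy0, hcrt⟩ := hCRT H hadm (2 * K0)
  set Sg := ∑ h ∈ K, h with hSg
  refine ⟨2 ^ m * M, C2, q1 + q2 + M + y0 + Sg + 4, ?_, ?_⟩
  · exact Nat.mul_pos (by positivity) hM1
  intro q hq hqp hqQ e he x hx
  -- `q = 1 + 2^m D`, `D = M j`
  have hdvd : 2 ^ m * M ∣ q - 1 := (Nat.modEq_iff_dvd' (by omega)).1 (Eq.symm hqQ)
  obtain ⟨j, hj⟩ := hdvd
  set D := M * j with hD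
  have hqD : q = 1 + 2 ^ m * D := by
    have : q = 1 + (q - 1) := by omega
    rw [this, hj, hD]; ring
  have hD1 : 1 ≤ D := by
    rcases Nat.eq_zero_or_pos D with h | h
    · rw [h] at hqD; omega
    · exact h
  have hDq : D ≤ q := by
    have : D ≤ 2 ^ m * D := Nat.le_mul_of_pos_left D (by positivity)
    omega
  set F : Finset (ℕ × ℕ) := ((UU K r).powerset ×ˢ H).image (form K r q D M y0) with hF
  have hFcard : F.card ≤ K0 := by
    calc F.card ≤ ((UU K r).powerset ×ˢ H).card := Finset.card_image_le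
      _ = 2 ^ (2 ^ m) * H.card := by
          rw [Finset.card_product, Finset.card_powerset, card_UU, hkr]
      _ ≤ K0 := by omega
  have hFcond : ∀ f ∈ F, ∀ p : ℕ, p.Prime → (p ≤ 2 * K0 → ∀ t : ℕ, ¬ p ∣ f.1 * t + f.2) ∧
      (2 * K0 < p → p < q → ¬ p ∣ f.1) := by
    intro f hf p hp
    obtain ⟨⟨A, h⟩, hP, rfl⟩ := Finset.mem_image.1 hf
    have hh : h ∈ H := (Finset.mem_product.1 hP).2
    constructor
    · intro hp2 t hd
      have hpM : p ∣ M := (Nat.Prime.dvd_factorial hp).2 hp2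
      have e1 : (form K r q D M y0 (A, h)).1 * t + (form K r q D M y0 (A, h)).2 =
          M * (q * t + 2 ^ m * j * y0 + j * EE K r A + A.card * j * h) + (y0 + h) := by
        unfold form
        simp only
        rw [hqD, hD]; ring
      rw [e1] at hd
      exact hcrt p hp hp2 h hh ((Nat.dvd_add_right (hpM.mul_right _)).1 hd)
    · intro hp1 hp2 hd
      rcases (Nat.Prime.dvd_mul hp).1 hd with h1 | h1
      · have := (Nat.prime_dvd_prime_iff_eq hp hqp).1 h1
        omega
      · have := (Nat.Prime.dvd_factorial hp).1 h1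
        omega
  have hsv1 := hsv q (by omega) F hFcard hFcond (q ^ C1) le_rfl
  have hqpos : 0 < q ^ C1 := pow_pos (by omega) _
  have hne : ((Ico (q ^ C1) (2 * q ^ C1)).filter
      (fun t => ∀ f ∈ F, Rough q (f.1 * t + f.2))).Nonempty := by
    rw [← Finset.card_pos]
    rcases Nat.eq_zero_or_pos ((Ico (q ^ C1) (2 * q ^ C1)).filter
      (fun t => ∀ f ∈ F, Rough q (f.1 * t + f.2))).card with h | h
    · rw [h] at hsv1; omega
    · exact h
  obtain ⟨t, ht⟩ := hne
  obtain ⟨ht1, ht2⟩ := Finset.mem_filter.1 ht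
  have ht3 : t < 2 * q ^ C1 := (Finset.mem_Ico.1 ht1).2
  set Y := y0 + M * t with hY
  have hshape : ∀ A ∈ (UU K r).powerset, ∀ h ∈ H,
      Rough q (q * Y + D * EE K r A + (1 + A.card * D) * h) := by
    intro A hA h hh
    have h1 := ht2 _ (Finset.mem_image_of_mem (form K r q D M y0)
      (Finset.mem_product.2 ⟨hA, hh⟩ : (A, h) ∈ (UU K r).powerset ×ˢ H))
    have e1 : (form K r q D M y0 (A, h)).1 * t + (form K r q D M y0 (A, h)).2 =
        q * Y + D * EE K r A + (1 + A.card * D) * h := by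
      unfold form
      simp only
      rw [hY]; ring
    rw [e1] at h1
    exact h1
  have hYrough : ∀ h ∈ H, Rough q (Y + h) := by
    intro h hh
    have h1 := hshape (UU K r) (Finset.mem_powerset_self _) h hh
    rw [EE_full, card_UU, hkr, ← hqD, mul_zero, add_zero, ← mul_add] at h1
    exact Rough.of_dvd h1 (Dvd.intro_left _ rfl)
  -- sizes
  have hq4 : 4 ≤ q := by omega
  have hYle : Y ≤ q ^ (C1 + 2) := by
    have h1 : M * t ≤ q * (2 * q ^ C1) := Nat.mul_le_mul (by omega) ht3.le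
    have h2 : y0 ≤ q * q ^ C1 := by
      calc y0 ≤ q * 1 := by omega
        _ ≤ q * q ^ C1 := Nat.mul_le_mul le_rfl hqpos
    calc Y ≤ q * q ^ C1 + q * (2 * q ^ C1) := Nat.add_le_add h2 h1
      _ = 3 * (q * q ^ C1) := by ring
      _ ≤ q * (q * q ^ C1) := Nat.mul_le_mul (by omega) le_rfl
      _ = q ^ (C1 + 2) := by ring
  have hY1 : 1 ≤ Y := by omega
  have hbig : ∀ A : Finset (ℕ ⊕ ℕ), q * Y + D * EE K r A ≤ q ^ (C1 + 4) := by
    intro A
    have h1 : D * EE K r A ≤ q * q := Nat.mul_le_mul hDq ((EE_le K r A).trans (by omega))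
    have h2 : q * q ≤ q ^ (C1 + 3) := by
      calc q * q = q ^ 2 := by ring
        _ ≤ q ^ (C1 + 3) := Nat.pow_le_pow_right (by omega) (by omega)
    calc q * Y + D * EE K r A ≤ q * q ^ (C1 + 2) + q ^ (C1 + 3) :=
          Nat.add_le_add (Nat.mul_le_mul le_rfl hYle) (h1.trans h2)
      _ = 2 * q ^ (C1 + 3) := by ring
      _ ≤ q * q ^ (C1 + 3) := Nat.mul_le_mul (by omega) le_rfl
      _ = q ^ (C1 + 4) := by ring
  have hYle' : Y ≤ q ^ (C1 + 4) := hYle.trans (Nat.pow_le_pow_right (by omega) (by omega))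
  -- the condition on `d`
  have hdcond : ∀ v : ℕ, ∀ p : ℕ, p.Prime → p ≤ 2 * H.card ^ 2 → ¬ p ∣ 1 + v * D := by
    intro v p hp hp2 hd
    have hp3 : p ≤ 2 * K0 := hp2.trans (Nat.mul_le_mul le_rfl (Nat.le_add_left _ _))
    have hpM : p ∣ M := (Nat.Prime.dvd_factorial hp).2 hp3
    have h1 : p ∣ v * D := (hpM.mul_right j).mul_left v
    exact hp.one_lt.ne' (Nat.dvd_one.1 ((Nat.dvd_add_left h1).1 hd))
  by_cases hall : ∀ A ∈ (UU K r).powerset, ∀ A' ∈ (UU K r).powerset, A.card = A'.card →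
      0 < A.card → A.card < 2 ^ m →
      Lam K (1 + A.card * D) (q * Y + D * EE K r A) = Lam K (1 + A.card * D) (q * Y + D * EE K r A')
  · have h1 := hCFG K r m q D Y hkr hodd hqp hqD hY1 hall
    refine hqb q (by omega) 1 Y (q * Y + D * ∑ h ∈ K, h) le_rfl (by omega) ?_ hY1 hYle'
      (by nlinarith) ?_ ?_ h1 e he x hx
    · have := hdcond 0
      simpa using this
    · have := hbig ∅
      rwa [EE_empty] at this
    · intro h hh
      refine ⟨by rw [one_mul]; exact hYrough h hh, ?_⟩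
      have h2 := hshape ∅ (Finset.empty_mem_powerset _) h hh
      rw [EE_empty, Finset.card_empty, zero_mul, add_zero] at h2
      exact h2
  · push Not at hall
    obtain ⟨A, hA, A', hA', hcard, hpos, hlt, hne'⟩ := hall
    have h1 := mul_eq_neg (Lam_or K _ _) (Lam_or K _ _) hne'
    have hdq : 1 + A.card * D < q := by
      have : A.card * D < 2 ^ m * D := Nat.mul_lt_mul_of_pos_right hlt hD1
      omega
    have hqY : 1 ≤ q * Y := Nat.mul_pos (by omega) hY1
    refine hqb q (by omega) (1 + A.card * D) (q * Y + D * EE K r A) (q * Y + D * EE K r A')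
      (by omega) hdq (hdcond _) (by omega) (hbig A) (by omega) (hbig A') ?_ h1 e he x hx
    intro h hh
    refine ⟨hshape A hA h hh, ?_⟩
    have h2 := hshape A' hA' h hh
    rw [← hcard] at h2
    exact h2

end Pool.Agent.Lib.MP3efbeb.Odd
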