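import Pool.Agent.Lib.MP_3efbeb_nt.Odd.Defs
import Pool.Agent.Lib.MP_391708_nt.QPA.Defs

/-!
# MP_3efbeb_nt, odd order: exact Specs with proofs

**Theorem.** `H` admissible, `K ⊆ H`, `|K|` odd. There is `C` such that for all `z ≥ 2`, `x ≥ z ^ C` and each parity
at least `x / z ^ C` of the `n ≤ x` have: all prime factors of `∏_{h ∈ H} (n + h)` are `> z` and
`Ω(∏_{h ∈ K} (n + h))` has the given parity.

Conventions: `λ = lam`, `Λ_d(b) = Lam K d b`, `Π = Λ_1`, rough = `Rough q`.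

Every module: file `Odd/<NAME>.lean`, theorem `specNAME (hXX : SpecXX) .. : SpecNAME` in the namespace
`Pool.Agent.Lib.MP3efbeb.Odd`, own lemmas in `Pool.Agent.Lib.MP3efbeb.Odd.<NAME>M`.
-/

set_option autoImplicit false

namespace Pool.Agent.Lib.MP3efbeb.Odd

open Finset
open scoped Classical
open Pool.Agent.Lib.MP391708.QPA (PB rInd)

/-! ## Group A: algebra -/

/-- CFG (no hypotheses). **The relation.** `U = UU K r`, `|U| = 2^m`, `X = qY`, `D = (q-1)/2^m`. (1) For all `X, D`: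
`∏_{A ⊆ U} Λ_{1+|A|D}(X + D E(A)) = 1`. Proof: exchange the products; for fixed `h ∈ K` the element
`X + D E(A) + (1+|A|D)h = X + h + D(E(A) + |A|h)` does not change if `inl h` is added to `A`
(`|A|` grows by `1`, `E(A)` drops by `h`), so the `2^|U|` factors come in equal pairs, and `lam n ^ 2 = 1`
(`Finset.prod_involution`, or `powerset_insert` for `U = insert (inl h) U'`). (2) The sets `A` with `|A| = v`, `0 < v < 2^m`: by
hypothesis all have the same value, and there are `Nat.choose (2^m) v` of them, an even number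
(`Nat.Prime.dvd_choose_pow Nat.prime_two`), so their product is `1`. (3) `A = ∅`: `E = ∑_{h ∈ K} h`, value
`Π(qY + D ∑ K)`. `A = U`: `E = 0`, `1 + 2^m D = q`, value `∏_h λ(q(Y+h)) = (-1)^|K| Π(Y) = -Π(Y)`
(`Nat.perm_primeFactorsList_mul`, `Nat.primeFactorsList_prime`). So `-Π(Y) Π(qY + D∑K) = 1`. -/
def SpecCFG : Prop := ∀ (K : Finset ℕ) (r m q D Y : ℕ), K.card + r = 2 ^ m → Odd K.card → q.Prime →
  q = 1 + 2 ^ m * D → 1 ≤ Y →
  (∀ A ∈ (UU K r).powerset, ∀ A' ∈ (UU K r).powerset, A.card = A'.card → 0 < A.card → A.card < 2 ^ m →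
    Lam K (1 + A.card * D) (q * Y + D * EE K r A) = Lam K (1 + A.card * D) (q * Y + D * EE K r A')) →
  Lam K 1 Y * Lam K 1 (q * Y + D * ∑ h ∈ K, h) = -1

/-- BIL (no hypotheses). **The bilinear relation.** Put `L = ∏_{h ∈ H} (b+dh)(c+dh)`,
`L_gh = L/((b+dg)(c+dh))` (exact division), `X_gh = a + bh + cg + dgh`. Then
`d X_gh = L s + (b+dg)(c+dh) = (b+dg)(c+dh)(L_gh s + 1)`; as `d` is coprime to `(b+dg)(c+dh)`,
`(b+dg)(c+dh) ∣ X_gh`, `X_gh = (b+dg)(c+dh) l_gh` with `d l_gh = L_gh s + 1`. For a row `g`: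
`X_gh = (a+cg) + (b+dg)h`, so `b+dg ∣ a+cg` (take any `h ∈ H`), `a+cg = (b+dg) n_g`,
`n_g + h = (c+dh) l_gh`. Columns: `a+bh = (c+dh) m_h`, `m_h + g = (b+dg) l_gh`. Values:
`∏_{g ∈ K} Π(n_g) = ∏_{g,h} λ(c+dh) λ(l_gh)`, `∏_{h ∈ K} Π(m_h) = ∏_{g,h} λ(b+dg) λ(l_gh)`, and the product is
`Λ_d(c)^k Λ_d(b)^k = Λ_d(b) Λ_d(c)`, `k = |K|` odd. -/
def SpecBIL : Prop := ∀ (H K : Finset ℕ) (d b c s a : ℕ), K ⊆ H → Odd K.card → 1 ≤ d → 1 ≤ b → 1 ≤ c →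
  (∀ h ∈ H, Nat.Coprime d (b + d * h)) → (∀ h ∈ H, Nat.Coprime d (c + d * h)) →
  d * a = (∏ h ∈ H, (b + d * h) * (c + d * h)) * s + b * c →
  ∃ (n m : ℕ → ℕ) (l : ℕ → ℕ → ℕ),
    (∀ g ∈ H, ∀ h ∈ H, 1 ≤ l g h ∧
      d * l g h = ((∏ h ∈ H, (b + d * h) * (c + d * h)) / ((b + d * g) * (c + d * h))) * s + 1 ∧
      n g + h = (c + d * h) * l g h ∧ m h + g = (b + d * g) * l g h) ∧
    (∏ g ∈ K, Lam K 1 (n g)) * ∏ h ∈ K, Lam K 1 (m h) = Lam K d b * Lam K d c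

/-- CRT (no hypotheses): Chinese remainder theorem (induction on `W`, or `Nat.chineseRemainder'`/`ZMod`); a class `a_p` for each
prime `p ≤ W`; the condition only depends on `y0` modulo `p`. -/
def SpecCRT : Prop := ∀ H : Finset ℕ, Admissible H → ∀ W : ℕ, ∃ y0 : ℕ, 1 ≤ y0 ∧
  ∀ p : ℕ, p.Prime → p ≤ W → ∀ h ∈ H, ¬ p ∣ y0 + h

/-! ## Group S: the sieve -/

/-- FLK (no hypotheses): `specFL` of `Pool/Agent/Lib/MP_391708_nt/QPA/FL.lean` with `2/p`, `2/3` replaced by `κ/p`,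
`1/2`. Import that file and reuse `bonf`, `rem_le`, `prod_low`, `size_le`, `rInd_eq`, `biUnion_Blk`,
`sum_Blk_le` (gives `∑_{p ∈ Blk} κ/p ≤ 4κ`), `K_le`, ...; only `block_bounds` (new constant
`Mc κ = exp(4κe + 8κ)`, lower bound `exp(-8κ)`), `sum_rho_le` and the final theorem must be copied and changed. -/
def SpecFLK : Prop := ∀ κ : ℕ, ∃ C : ℝ, 0 < C ∧ ∀ (b : ℕ) (z : ℝ), 2 ≤ z →
  ∀ (S : Finset ℕ) (v : ℕ → ℕ) (om : ℕ → ℝ) (X : ℝ) (g : ℕ → ℝ), 0 ≤ X → (∀ i ∈ S, 0 ≤ om i) →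
  (∀ p : ℕ, p.Prime → 0 ≤ g p ∧ g p ≤ κ / (p : ℝ) ∧ g p ≤ 1 / 2) →
  |(∑ i ∈ S, om i * rInd z (v i)) - X * ∏ p ∈ PB z, (1 - g p)|
    ≤ C * Real.exp (-(b : ℝ)) * X * (∏ p ∈ PB z, (1 - g p))
      + C * (1 + Real.log z) *
        ∑ δ ∈ (Icc 1 ⌊z ^ (8 * b + 16)⌋₊).filter
          (fun δ => Squarefree δ ∧ ∀ p : ℕ, p.Prime → p ∣ δ → (p : ℝ) < z),
          |(∑ i ∈ S.filter (fun i => δ ∣ v i), om i) - X * ∏ p ∈ δ.primeFactors, g p|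

/-- VLB (no hypotheses): with `exists_K`, `biUnion_Blk`, `sum_Blk_le` of `QPA/FL.lean`: `1 - g ≥ exp(-2g)` for
`0 ≤ g ≤ 1/2`, so each block has product `≥ exp(-8κ)` and there are `K+1` blocks with `2^(2^K) ≤ q`:
the product is `≥ exp(-8κ(K+1)) ≥ 4/q` for large `q` (`2^(2^K) ≥ 4 exp(8κ(K+1))` for `K ≥ K₁`, and for
`K < K₁` the product is `≥ exp(-8κ K₁) ≥ 4/q` for large `q`). -/
def SpecVLB : Prop := ∀ κ : ℕ, ∃ q0 : ℕ, 2 ≤ q0 ∧ ∀ q : ℕ, q0 ≤ q → ∀ g : ℕ → ℝ,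
  (∀ p : ℕ, p.Prime → 0 ≤ g p ∧ g p ≤ κ / (p : ℝ) ∧ g p ≤ 1 / 2) →
  4 / (q : ℝ) ≤ ∏ p ∈ PB (q : ℝ), (1 - g p)

/-- RT (no hypotheses): `vF F` is periodic modulo `δ`; each class modulo `δ` meets `Ico T (2T)` in `T/δ + O(1)` elements
(error `≤ 1`), so the left side is at most `nu F δ ≤ δ` once `nu F δ = ∏_{p ∣ δ} nu F p` (multiplicativity for
coprime moduli by the Chinese remainder theorem, compare `specRHOM`, `specRHOC` in `QPA/Rho.lean`). -/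
def SpecRT : Prop := ∀ (F : Finset (ℕ × ℕ)) (δ T : ℕ), Squarefree δ →
  |(((Ico T (2 * T)).filter (fun t => δ ∣ vF F t)).card : ℝ) -
    T * ∏ p ∈ δ.primeFactors, ((nu F p : ℝ) / p)| ≤ δ

/-- NU (no hypotheses): modulo a prime not dividing `f.1` the form `f` has exactly one root; the product has at most
`|F|` roots. -/
def SpecNU : Prop := ∀ (F : Finset (ℕ × ℕ)) (p : ℕ), p.Prime → (∀ f ∈ F, ¬ p ∣ f.1) → nu F p ≤ F.card

/-- SV (from FLK, VLB, RT, NU). **The sieve lemma.** Apply FLK with `κ = K0`, `z = q`, `S = Ico T (2T)`, `om = 1`,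
`X = T`, `v = vF F`, `g p = nu F p / p` if `2K0 < p < q`, and `g p = 0` otherwise. For `2K0 < p < q`:
`nu F p ≤ K0`, so `g p ≤ K0/p ≤ 1/2`. For `δ` squarefree with prime factors `< q`: if all its prime factors are
`> 2K0` the remainder is `≤ δ` by RT; otherwise both the count and the product are `0` (count: a prime
`p ≤ 2K0`, `p ∣ δ` does not divide `vF F t`; the product has the factor `g p = 0`). Choose `b` with `C exp(-b) ≤ 1/2`; the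
sum of the remainders is `≤ ∑_{δ ≤ q^(8b+16)} δ ≤ q^(16b+32)`, and `C(1+log q) ≤ q` for large `q`. So the count is
`≥ T (1/2) (4/q) - q^(16b+33) ≥ 2T/q - q^(16b+33) ≥ T/q` for `T ≥ q^(16b+34)`. `rInd q (vF F t) = 1` iff all forms are
rough. -/
def SpecSV : Prop := ∀ K0 : ℕ, ∃ C q0 : ℕ, ∀ q : ℕ, q0 ≤ q → ∀ F : Finset (ℕ × ℕ), F.card ≤ K0 →
  (∀ f ∈ F, ∀ p : ℕ, p.Prime → (p ≤ 2 * K0 → ∀ t : ℕ, ¬ p ∣ f.1 * t + f.2) ∧
    (2 * K0 < p → p < q → ¬ p ∣ f.1)) →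
  ∀ T : ℕ, q ^ C ≤ T →
    T ≤ q * ((Ico T (2 * T)).filter (fun t => ∀ f ∈ F, Rough q (f.1 * t + f.2))).card

/-! ## Group P: primes -/

/-- PRI (no hypotheses): from `Pool.Agent.Lib.PntAP.psi_ap` (`Pool/Agent/Lib/PntAP/Main.lean`): the sum of `Λ(n)` over
`y < n ≤ 2y`, `n ≡ 1 (mod Q)` is `≥ y/(2φ(Q))` for large `y`, and the prime powers `p^j`, `j ≥ 2`, contribute
`O(√y log y)` (`Chebyshev.abs_psi_sub_theta_le_sqrt_mul_log`). -/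
def SpecPRI : Prop := ∀ Q : ℕ, 1 ≤ Q → ∃ Y0 : ℕ, ∀ y : ℕ, Y0 ≤ y →
  ∃ q : ℕ, q.Prime ∧ y < q ∧ q ≤ 2 * y ∧ q % Q = 1 % Q

/-! ## Group M: the argument -/

/-- QB (from SV, BIL). **The bilinear step.** `M = (2|H|²)!`, `L`, `L_gh` as in BIL; `q` larger than `M`, `d` and all
`h ∈ H`, `2|K| + 1`, .... `d` is coprime to the rough numbers `b+dh`, `c+dh` (prime factors of `d` are `< q`), hence to
`b`, `c`, `L`, and to `M`. By the Chinese remainder theorem there is `s₁ < dM` with `M ∣ s₁` and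
`L s₁ ≡ -bc (mod d)`. For `s = s₁ + dMt` BIL applies with `a = (Ls+bc)/d`, and
`l_gh = (L_gh s₁ + 1)/d + L_gh M t` is a linear form in `t`. SV with `K0 = |H|²` and these `≤ |H|²` forms: for
`p ≤ 2|H|²`: `p ∣ M ∣ s`, `d l_gh = L_gh s + 1`, so `p ∤ l_gh`; for `2|H|² < p < q`: `p ∤ L_gh M` (`L_gh` is a
product of rough numbers, `M` has only prime factors `≤ 2|H|²`). For `T = ⌊x/q^C₁⌋` and at least `T/q` of the
`t ∈ [T, 2T)` all `l_gh` are rough, hence also `n_g + h = (c+dh) l_gh` and `m_h + g = (b+dg) l_gh` for `g, h ∈ H`;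
sizes: `n_g, m_h ≤ 2 L s ≤ x` (with `L ≤ q^..`), and `n_g, m_h ≥ 1`. As the product of the `2|K|` signs is `-1`,
one of the `n_g`, `m_h` (`g, h ∈ K`) has sign `e` (all signs `-e` would give product `1`). For one of the `2|K|`
indices this holds for at least `T/(2|K|q)` of the `t`, and `n_g` (`m_h`) is strictly increasing in `t`. -/
def SpecQB : Prop := ∀ (H K : Finset ℕ), K ⊆ H → Odd K.card → ∀ C' : ℕ, ∃ C q0 : ℕ,
  ∀ q : ℕ, q0 ≤ q → ∀ d b c : ℕ, 1 ≤ d → d < q → (∀ p : ℕ, p.Prime → p ≤ 2 * H.card ^ 2 → ¬ p ∣ d) →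
  1 ≤ b → b ≤ q ^ C' → 1 ≤ c → c ≤ q ^ C' → (∀ h ∈ H, Rough q (b + d * h) ∧ Rough q (c + d * h)) →
  Lam K d b * Lam K d c = -1 → ∀ e : ℤ, e = 1 ∨ e = -1 → ∀ x : ℕ, q ^ C ≤ x →
  x ≤ q ^ C * cnt H K q e x

/-- QA (from SV, CFG, CRT, QB). **The configuration.** `m = |K|`, `r = 2^m - |K|`, `U = UU K r`,
`K0 = 2^(2^m) |H| + |H|²`, `M = (2K0)!`, `Q = 2^m M`, `q ≡ 1 (mod Q)` prime, `D = (q-1)/2^m` (a multiple of `M`), `y0` from
CRT with `W = 2K0`, `Y = y0 + Mt`. SV with the forms `qM t + (q y0 + D E(A) + (1+|A|D)h)` (`A ⊆ U`, `h ∈ H`):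
modulo `p ≤ 2K0` (so `p ∣ M ∣ D`, `q ≡ 1`) they are `≡ y0 + h ≢ 0`; for `2K0 < p < q`: `p ∤ qM`. So there is
`t < 2q^C₁` with all of them rough; `A = U` gives `q(Y+h)`, so the `Y+h` are rough too. If
`Π(Y)Π(qY + D∑K) = -1` apply QB with `d = 1`, `b = Y`, `c = qY + D∑K`; otherwise by CFG there are `A, A' ⊆ U` of
the same size `v`, `0 < v < 2^m`, with `Λ_d(qY + D E(A)) Λ_d(qY + D E(A')) = -1`, `d = 1 + vD < q`,
`d ≡ 1 (mod M)`, and QB applies. -/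
def SpecQA : Prop := ∀ (H K : Finset ℕ), Admissible H → K ⊆ H → Odd K.card → ∃ Q C q0 : ℕ, 1 ≤ Q ∧
  ∀ q : ℕ, q0 ≤ q → q.Prime → q % Q = 1 % Q → ∀ e : ℤ, e = 1 ∨ e = -1 → ∀ x : ℕ, q ^ C ≤ x →
  x ≤ q ^ C * cnt H K q e x

/-- FIN (from QA, PRI): for `z ≥ 2` take `q ∈ (z', 2z']`, `z' = max z Y0 ..`; `q ≤ z^c`. -/
def SpecFIN : Prop := ∀ (H K : Finset ℕ), Admissible H → K ⊆ H → Odd K.card → ∀ r : ℕ,
  ∃ C : ℕ, ∀ z : ℕ, 2 ≤ z → ∀ x : ℕ, z ^ C ≤ x →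
    x ≤ z ^ C * ((Icc 1 x).filter (fun n =>
      (∀ p : ℕ, p.Prime → p ∣ ∏ h ∈ H, (n + h) → z < p) ∧
      (∏ h ∈ K, (n + h)).primeFactorsList.length % 2 = r % 2)).card

end Pool.Agent.Lib.MP3efbeb.Odd
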